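import Pool.Agent.HJ.Defs

/-!
# The decoder: continuity, and how a chain of nodes is decoded
-/

open Set PiNat MeasureTheory MP73ea52

namespace HJ

variable {φ : (ℕ → ℕ) → (ℕ → ℕ)} (c : Code φ)

private theorem firstDiff_eq {x e : ℕ → ℕ} {m : ℕ} (h1 : ∀ j < m, x j = e j) (h2 : x m ≠ e m) :
    firstDiff x e = m := by
  have hne : x ≠ e := fun h => h2 (congrFun h m)
  rcases lt_trichotomy (firstDiff x e) m with h | h | h
  · exact absurd (h1 _ h) (apply_firstDiff_ne hne)
  · exact h
  · exact absurd (apply_eq_of_lt_firstDiff h) h2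

private theorem lev_congr {x x' : ℕ → ℕ} (hx : x ∉ range φ) (q : ℕ × ℕ) {N : ℕ}
    (h : res x' N = res x N) (h1 : q.2 ≤ N) (h2 : c.lev x q + 1 ≤ N) :
    c.lev x' q = c.lev x q := by
  have hq : res x' q.2 = res x q.2 :=
    res_eq_res.2 fun m hm => res_eq_res.1 h (lt_of_lt_of_le hm h1)
  have hne : x ≠ c.eps q.1 (res x q.2) := by
    intro he
    exact hx (he ▸ c.eps_mem q.1 (res x q.2))
  have hf := apply_firstDiff_ne hne
  rw [Code.lev, hq]
  refine firstDiff_eq (fun j hj => ?_) ?_
  · have hj' : j < c.lev x q := hj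
    rw [res_eq_res.1 h (by omega : j < N)]
    exact apply_eq_of_lt_firstDiff hj
  · have : x' (c.lev x q) = x (c.lev x q) := res_eq_res.1 h (by omega : c.lev x q < N)
    rw [this]
    exact hf

private theorem st_const {x : ℕ → ℕ} (hx : x ∉ range φ) (k : ℕ) :
    ∃ n, ∀ x' ∉ range φ, res x' n = res x n →
      c.st x' k = c.st x k ∧ c.lev x' (c.st x' k) = c.lev x (c.st x k) := by
  induction k with
  | zero =>
    refine ⟨c.lev x (c.st x 0) + 1, fun x' hx' h => ?_⟩
    have h0 : c.st x' 0 = c.st x 0 := rfl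
    refine ⟨h0, ?_⟩
    rw [h0]
    refine lev_congr c hx _ h ?_ le_rfl
    show 0 ≤ _
    exact Nat.zero_le _
  | succ k ih =>
    obtain ⟨n, hn⟩ := ih
    refine ⟨max n (max (c.st x (k + 1)).2 (c.lev x (c.st x (k + 1)) + 1)), fun x' hx' h => ?_⟩
    have hn' : res x' n = res x n :=
      res_eq_res.2 fun m hm => res_eq_res.1 h (lt_of_lt_of_le hm (le_max_left _ _))
    obtain ⟨h1, h2⟩ := hn x' hx' hn'
    have h3 : c.st x' (k + 1) = c.st x (k + 1) := by
      rw [Code.st, h2, h1, Code.st]
    refine ⟨h3, ?_⟩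
    rw [h3]
    exact lev_congr c hx _ h (le_trans (le_max_left _ _) (le_max_right _ _))
      (le_trans (le_max_right _ _) (le_max_right _ _))

/-- the states and outputs are locally constant outside `range φ` -/
theorem Code.locally_const {x : ℕ → ℕ} (hx : x ∉ range φ) (k : ℕ) :
    ∃ n, ∀ x' ∉ range φ, res x' n = res x n →
      c.st x' k = c.st x k ∧ c.outA x' k = c.outA x k ∧ c.outY x' k = c.outY x k := by
  obtain ⟨n, hn⟩ := st_const c hx k
  refine ⟨n, fun x' hx' h => ?_⟩
  obtain ⟨h1, h2⟩ := hn x' hx' h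
  refine ⟨h1, ?_, ?_⟩
  · rw [Code.outA, h2, Code.outA]
  · rw [Code.outY, h2, Code.outY]

private theorem eventually_res (x : ((range φ)ᶜ : Set (ℕ → ℕ))) (n : ℕ) :
    ∀ᶠ x' : ((range φ)ᶜ : Set (ℕ → ℕ)) in nhds x, res x'.1 n = res x.1 n :=
  ((isOpen_resEq n (res x.1 n)).preimage continuous_subtype_val).mem_nhds rfl

theorem Code.continuous_outA (k : ℕ) :
    Continuous fun x : ((range φ)ᶜ : Set (ℕ → ℕ)) => c.outA x.1 k := by
  refine IsLocallyConstant.continuous ?_
  rw [IsLocallyConstant.iff_eventually_eq]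
  intro x
  obtain ⟨n, hn⟩ := c.locally_const x.2 k
  filter_upwards [eventually_res x n] with x' hx'
  exact (hn x'.1 x'.2 hx').2.1

theorem Code.continuous_outY (k : ℕ) :
    Continuous fun x : ((range φ)ᶜ : Set (ℕ → ℕ)) => c.outY x.1 k := by
  refine IsLocallyConstant.continuous ?_
  rw [IsLocallyConstant.iff_eventually_eq]
  intro x
  obtain ⟨n, hn⟩ := c.locally_const x.2 k
  filter_upwards [eventually_res x n] with x' hx'
  exact (hn x'.1 x'.2 hx').2.2

/-- a chain of nodes `s k`, where `s (k+1)` leaves the guessed point at the level `m k ≥` length of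
`s k`, has a limit, which is decoded as prescribed -/
theorem Code.decode (s : ℕ → List ℕ) (i a y m d : ℕ → ℕ) (h0 : i 0 = c.i0) (hs0 : s 0 = [])
    (hm : ∀ k, (s k).length ≤ m k)
    (he : ∀ k, res (c.eps (i k) (s k)) (s k).length = s k)
    (hd : ∀ k, d k ≠ c.eps (i k) (s k) (m k))
    (hs : ∀ k, s (k + 1) = d k :: res (c.eps (i k) (s k)) (m k))
    (hr : ∀ k, c.rho (m k) = ((i (k + 1), a k), y k)) :
    ∃ x, (∀ k, res x (s k).length = s k) ∧ (∀ k, c.outA x k = a k) ∧ ∀ k, c.outY x k = y k := by
  classical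
  have hlen : ∀ k, (s (k + 1)).length = m k + 1 := by
    intro k
    rw [hs k, List.length_cons, res_length]
  let z : ℕ → ℕ → ℕ := fun k => Function.update (c.eps (i k) (s k)) (m k) (d k)
  have hzlt : ∀ k j, j < m k → z k j = c.eps (i k) (s k) j := by
    intro k j hj
    exact Function.update_of_ne (by omega) _ _
  have hzm : ∀ k, z k (m k) = d k := fun k => Function.update_self _ _ _
  have hz1 : ∀ k, res (z k) (s (k + 1)).length = s (k + 1) := by
    intro k
    rw [hlen k, res_succ, hzm, hs k]
    congr 1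
    exact res_eq_res.2 fun j hj => hzlt k j hj
  have hz0 : ∀ k, res (z k) (s k).length = s k := by
    intro k
    have h1 : res (z k) (s k).length = res (c.eps (i k) (s k)) (s k).length :=
      res_eq_res.2 fun j hj => hzlt k j (lt_of_lt_of_le hj (hm k))
    rw [h1, he k]
  have hk : ∀ k, k ≤ (s k).length := by
    intro k
    induction k with
    | zero => exact Nat.zero_le _
    | succ k ih =>
      have := hm k
      have := hlen k
      omega
  have hmono : ∀ k k', k ≤ k' → (s k).length ≤ (s k').length := by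
    intro k k' hkk
    induction hkk with
    | refl => exact le_rfl
    | step _ ih =>
      rename_i k'' _
      have h1 := hm k''
      have h2 := hlen k''
      show (s k).length ≤ (s (k'' + 1)).length
      omega
  have hz : ∀ k k', k ≤ k' → ∀ j < (s (k + 1)).length, z k' j = z k j := by
    intro k k' hkk
    induction hkk with
    | refl => intro j _; rfl
    | step hle ih =>
      rename_i k''
      intro j hj
      rw [← ih j hj]
      have h1 : res (z (k'' + 1)) (s (k'' + 1)).length = res (z k'') (s (k'' + 1)).length := by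
        rw [hz0, hz1]
      exact res_eq_res.1 h1 (lt_of_lt_of_le hj (hmono _ _ (Nat.succ_le_succ hle)))
  let x : ℕ → ℕ := fun j => z j j
  have hx : ∀ k, res x (s k).length = s k := by
    intro k
    have h1 : res x (s k).length = res (z k) (s k).length := by
      refine res_eq_res.2 fun j hj => ?_
      rcases le_total j k with h | h
      · exact (hz j k h j (lt_of_lt_of_le (Nat.lt_succ_self j) (hk (j + 1)))).symm
      · exact hz k j h j (by have := hm k; have := hlen k; omega)
    rw [h1, hz0]
  have hst : ∀ k, c.st x k = (i k, (s k).length) → c.lev x (c.st x k) = m k := by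
    intro k h
    rw [h, Code.lev]
    show firstDiff x (c.eps (i k) (res x (s k).length)) = m k
    rw [hx k]
    have h1 : res x (m k + 1) = d k :: res (c.eps (i k) (s k)) (m k) := by
      rw [← hs k, ← hlen k]
      exact hx (k + 1)
    rw [res_succ] at h1
    obtain ⟨h2, h3⟩ := List.cons.inj h1
    refine firstDiff_eq (fun j hj => res_eq_res.1 h3 hj) ?_
    rw [h2]
    exact hd k
  have hst' : ∀ k, c.st x k = (i k, (s k).length) := by
    intro k
    induction k with
    | zero =>
      rw [h0, hs0]
      rfl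
    | succ k ih =>
      rw [Code.st, hst k ih, hr k, ih, hlen k]
      have := hm k
      show (i (k + 1), max (s k).length (m k + 1)) = _
      rw [max_eq_right (by omega)]
  refine ⟨x, hx, fun k => ?_, fun k => ?_⟩
  · rw [Code.outA, hst k (hst' k), hr k]
  · rw [Code.outY, hst k (hst' k), hr k]

end HJ
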