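import Pool.Agent.HJ.Rank
import Pool.Agent.HJ.Decoder

/-!
# The coder
-/

open Set PiNat MeasureTheory MP73ea52

namespace HJ

variable {φ ψ : (ℕ → ℕ) → (ℕ → ℕ)}

/-- the state of the coder: condition, index, node and the labels so far -/
structure CSt where
  σ : Cond
  i : ℕ
  s : List ℕ
  A : ℕ → ℕ

/-- the image of `u` under the labels `A` -/
def lb (A : ℕ → ℕ) (u : List ℕ) : List ℕ := lab (fun u => A (Encodable.encode u)) u

theorem encode_tail_lt (a : ℕ) (u : List ℕ) :
    Encodable.encode u < Encodable.encode (a :: u) := by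
  rw [Encodable.encode_list_cons]
  exact Nat.lt_succ_of_le (Nat.right_le_pair _ _)

theorem lb_congr {A A' : ℕ → ℕ} {u : List ℕ} (h : ∀ j ≤ Encodable.encode u, A j = A' j) :
    lb A u = lb A' u := by
  induction u with
  | nil => rfl
  | cons a u ih =>
    have h1 := encode_tail_lt a u
    show A (Encodable.encode (a :: u)) :: lb A u = A' (Encodable.encode (a :: u)) :: lb A' u
    rw [h _ le_rfl, ih fun j hj => h j (hj.trans h1.le)]

/-- the invariant of the coder -/
structure Inv (c : Code φ) (ψ : (ℕ → ℕ) → (ℕ → ℕ)) (y : ℕ → ℕ) (β : WithBot Ordinal.{0}) (k : ℕ)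
    (S : CSt) : Prop where
  root : ([], β) ∈ S.σ
  tree : c.T S.i = tr (pts φ S.σ)
  node : S.s ∈ c.T S.i
  emb : ∀ u, (u = [] ∨ Encodable.encode u < k) → u ∈ treeOf ψ y →
    ∃ o, (lb S.A u, o) ∈ S.σ ∧ rkb ψ y u ≤ o

/-- one step of the coder -/
structure Nxt (c : Code φ) (y : ℕ → ℕ) (k : ℕ) (S S' : CSt) (m d a : ℕ) : Prop where
  guess : res (c.eps S.i S.s) S.s.length = S.s
  le : S.s.length ≤ m
  ne : d ≠ c.eps S.i S.s m
  s' : S'.s = d :: res (c.eps S.i S.s) m
  rho : c.rho m = ((S'.i, a), y k)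
  A' : S'.A = Function.update S.A k a
  sub : S.σ ⊆ S'.σ
  dec : ∀ t : List ℕ, Encodable.encode t = k → ∃ o, (t, o) ∈ S'.σ

theorem exists_next (hφ : Continuous φ) (hψ : Continuous ψ) (c : Code φ) {y : ℕ → ℕ}
    (hy : y ∉ range ψ) {w : ℕ → ℕ} (hw : w ∉ range φ) (hb : c.b0 ≤ rkb φ w [])
    {k : ℕ} {S : CSt} (hS : Inv c ψ y (rkb φ w []) k S) :
    ∃ S' m d a, Inv c ψ y (rkb φ w []) (k + 1) S' ∧ Nxt c y k S S' m d a := by
  set β := rkb φ w [] with hβ
  -- the node `u` treated now
  set u : List ℕ := (Encodable.decode (α := List ℕ) k).getD [] with hu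
  have huk : ∀ t : List ℕ, Encodable.encode t = k → t = u := by
    rintro t rfl
    rw [hu, Encodable.encodek]
    rfl
  -- the task
  have key : ∃ (v : List ℕ) (γ o : WithBot Ordinal.{0}), (v, o) ∈ S.σ ∧ γ < o ∧
      ∀ e u', u = e :: u' → Encodable.encode u = k → u ∈ treeOf ψ y →
        v = lb S.A u' ∧ γ = rkb ψ y u := by
    by_cases h : (∃ e u', u = e :: u') ∧ Encodable.encode u = k ∧ u ∈ treeOf ψ y
    · obtain ⟨⟨e, u', he⟩, hk, hT⟩ := h
      have hu' : u' ∈ treeOf ψ y := by
        rw [he] at hT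
        exact treeOf_tail ψ y e u' hT
      have hlt : Encodable.encode u' < k := by
        rw [← hk, he]
        exact encode_tail_lt e u'
      obtain ⟨o, ho, hle⟩ := hS.emb u' (Or.inr hlt) hu'
      refine ⟨lb S.A u', rkb ψ y u, o, ho, ?_, ?_⟩
      · refine lt_of_lt_of_le ?_ hle
        rw [he]
        exact rkb_cons_lt hψ hy hu'
      · intro e' u'' he' _ _
        rw [he] at he'
        rw [(List.cons.inj he').2]
        exact ⟨rfl, rfl⟩
    · refine ⟨[], ⊥, β, hS.root, ?_, ?_⟩
      · rw [bot_lt_iff_ne_bot, hβ]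
        intro h0
        rw [rkb_eq_bot hφ hw] at h0
        exact h0 (nil_mem_treeOf φ w)
      · intro e u' he hk hT
        exact absurd ⟨⟨e, u', he⟩, hk, hT⟩ h
  obtain ⟨v, γ, o, hvo, hγ, htask⟩ := key
  obtain ⟨hg, m, hm, d, hd, i', a, o₁, o₂, hγ₁, hT', hs', hr⟩ :=
    c.step S.σ β S.i S.s v u γ o (y k) hS.root hb hS.tree hS.node hvo hγ
  refine ⟨⟨S.σ ++ [(a :: v, o₁), (u, o₂)], i', d :: res (c.eps S.i S.s) m,
    Function.update S.A k a⟩, m, d, a, ⟨?_, hT', hs', ?_⟩, ⟨hg, hm, hd, rfl, hr, rfl, ?_, ?_⟩⟩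
  · exact List.mem_append_left _ hS.root
  · rintro u₁ hu₁ hu₁T
    have hold : (u₁ = [] ∨ Encodable.encode u₁ < k) → ∃ o,
        (lb (Function.update S.A k a) u₁, o) ∈ S.σ ++ [(a :: v, o₁), (u, o₂)] ∧
          rkb ψ y u₁ ≤ o := by
      intro h
      obtain ⟨o', ho', hle⟩ := hS.emb u₁ h hu₁T
      refine ⟨o', List.mem_append_left _ ?_, hle⟩
      rcases h with rfl | h
      · exact ho'
      · rw [lb_congr (A' := S.A)]
        · exact ho'
        · intro j hj
          exact Function.update_of_ne (by omega) _ _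
    rcases hu₁ with h | h
    · exact hold (Or.inl h)
    · rcases Nat.lt_succ_iff_lt_or_eq.1 h with h | h
      · exact hold (Or.inr h)
      · cases u₁ with
        | nil => exact hold (Or.inl rfl)
        | cons e u' =>
          have he := huk _ h
          have hk : Encodable.encode u = k := by rw [← he, h]
          obtain ⟨hv, hγe⟩ := htask e u' he.symm hk (he ▸ hu₁T)
          refine ⟨o₁, List.mem_append_right _ ?_, ?_⟩
          · have h1 : lb (Function.update S.A k a) (e :: u') = a :: v := by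
              show Function.update S.A k a (Encodable.encode (e :: u')) ::
                lb (Function.update S.A k a) u' = a :: v
              rw [h, Function.update_self, hv, lb_congr (A' := S.A)]
              intro j hj
              have := encode_tail_lt e u'
              exact Function.update_of_ne (by omega) _ _
            rw [h1]
            exact List.mem_cons_self
          · rw [he, ← hγe]
            exact hγ₁
  · exact List.subset_append_left _ _
  · intro t ht
    rw [huk t ht]
    exact ⟨o₂, List.mem_append_right _ (by simp)⟩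

/-- every point `y` of the coanalytic set `(range ψ)ᶜ`, together with an embedding of its tree in
the tree of `x`, is decoded from some `x ∈ C` -/
theorem exists_coded (hφ : Continuous φ) (hC : ¬ MeasurableSet (range φ)ᶜ) (hψ : Continuous ψ)
    (c : Code φ) {y : ℕ → ℕ} (hy : y ∉ range ψ) :
    ∃ x ∉ range φ, (∀ k, c.outY x k = y k) ∧
      ∀ u ∈ treeOf ψ y, lab (fun u => c.outA x (Encodable.encode u)) u ∈ treeOf φ x := by
  classical
  obtain ⟨x₁, hx₁, hle₁⟩ := exists_above hφ hC hψ hy
  obtain ⟨w, hw, hle, hb, hT0⟩ := c.start x₁ hx₁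
  -- the states
  let Q : ℕ → Type 1 := fun k => {S : CSt // Inv c ψ y (rkb φ w []) k S}
  have init : Inv c ψ y (rkb φ w []) 0 ⟨[([], rkb φ w [])], c.i0, [], fun _ => 0⟩ := by
    refine ⟨List.mem_cons_self, hT0, ?_, ?_⟩
    · show [] ∈ c.T c.i0
      rw [hT0]
      refine ⟨w, ⟨hw, ?_⟩, rfl⟩
      intro q hq
      rw [List.mem_singleton] at hq
      rw [hq]
    · rintro u (rfl | h) _
      · exact ⟨_, List.mem_cons_self, hle₁.trans hle⟩
      · exact absurd h (Nat.not_lt_zero _)
  have step : ∀ k (S : Q k), ∃ (S' : Q (k + 1)) (m d a : ℕ), Nxt c y k S.1 S'.1 m d a := by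
    rintro k ⟨S, hS⟩
    obtain ⟨S', m, d, a, h1, h2⟩ := exists_next hφ hψ c hy hw hb hS
    exact ⟨⟨S', h1⟩, m, d, a, h2⟩
  choose nx mm dd aa hn using step
  let st : ∀ k, Q k := fun k => Nat.rec ⟨_, init⟩ (fun k S => nx k S) k
  have st_succ : ∀ k, st (k + 1) = nx k (st k) := fun k => rfl
  have hn' : ∀ k, Nxt c y k (st k).1 (st (k + 1)).1 (mm k (st k)) (dd k (st k)) (aa k (st k)) :=
    fun k => hn k (st k)
  obtain ⟨x, hx1, hx2, hx3⟩ := c.decode (fun k => (st k).1.s) (fun k => (st k).1.i)
    (fun k => aa k (st k)) y (fun k => mm k (st k)) (fun k => dd k (st k)) rfl rfl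
    (fun k => (hn' k).le) (fun k => (hn' k).guess) (fun k => (hn' k).ne) (fun k => (hn' k).s')
    (fun k => (hn' k).rho)
  -- lengths
  have hlen : ∀ k, k ≤ (st k).1.s.length := by
    intro k
    induction k with
    | zero => exact Nat.zero_le _
    | succ k ih =>
      rw [(hn' k).s', List.length_cons, res_length]
      have := (hn' k).le
      omega
  -- the conditions increase
  have hmono : ∀ k j, k ≤ j → (st k).1.σ ⊆ (st j).1.σ := by
    intro k j hkj
    induction j, hkj using Nat.le_induction with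
    | base => exact List.Subset.refl _
    | succ j _ ih => exact List.Subset.trans ih (hn' j).sub
  -- every point of the stage-`k` tree
  have hpt : ∀ k, ∃ x' ∈ pts φ (st k).1.σ, res x' (st k).1.s.length = res x (st k).1.s.length := by
    intro k
    have h1 := (st k).2.node
    rw [(st k).2.tree] at h1
    obtain ⟨x', hx', hr⟩ := h1
    exact ⟨x', hx', hr.trans (hx1 k).symm⟩
  -- the ranks are decided
  have hdec : ∀ t : List ℕ, ∃ o, ∀ k, Encodable.encode t < k → (t, o) ∈ (st k).1.σ := by
    intro t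
    obtain ⟨o, ho⟩ := (hn' (Encodable.encode t)).dec t rfl
    exact ⟨o, fun k hk => hmono _ _ hk ho⟩
  choose f hf using hdec
  have hlt : ∀ t' t, Child (treeOf φ x) t' t → f t' < f t := by
    rintro _ t ⟨a, rfl, ha⟩
    have ht := treeOf_tail φ x a t ha
    set k := Encodable.encode (a :: t) + (a :: t).length + 1 with hk
    obtain ⟨x', hx', hr⟩ := hpt k
    have h1 := encode_tail_lt a t
    have hl := hlen k
    have h2 : rkb φ x' (a :: t) = f (a :: t) := hx'.2 _ (hf (a :: t) k (by omega))
    have h3 : rkb φ x' t = f t := hx'.2 _ (hf t k (by omega))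
    have ht' : t ∈ treeOf φ x' := (mem_treeOf_congr hr (by
      rw [List.length_cons] at hk; omega)).2 ht
    have h4 := rkb_cons_lt hφ hx'.1 (a := a) ht'
    rw [← h2, ← h3]
    exact h4
  have hxC : x ∉ range φ := by
    rw [← wf_treeOf_iff φ hφ x]
    exact Subrelation.wf (fun {t' t} h => hlt t' t h) (InvImage.wf f (wellFounded_lt))
  refine ⟨x, hxC, hx3, ?_⟩
  -- the labels
  have hA : ∀ k j, j < k → (st k).1.A j = c.outA x j := by
    intro k j hjk
    induction k, hjk using Nat.le_induction with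
    | base =>
      rw [(hn' j).A', Function.update_self, hx2]
    | succ k hk ih =>
      rw [(hn' k).A', Function.update_of_ne (by omega), ih]
  intro u hu
  set k := Encodable.encode u + u.length + 1 with hk
  obtain ⟨o, ho, hle'⟩ := (st k).2.emb u (Or.inr (by omega)) hu
  obtain ⟨x', hx', hr⟩ := hpt k
  have h2 : rkb φ x' (lb (st k).1.A u) = o := hx'.2 _ ho
  have hob : o ≠ ⊥ := by
    rintro rfl
    rw [le_bot_iff, rkb_eq_bot hψ hy] at hle'
    exact hle' hu
  have hlb : lb (st k).1.A u = lab (fun u => c.outA x (Encodable.encode u)) u := by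
    show _ = lb (c.outA x) u
    refine lb_congr fun j hj => hA k j (by omega)
  have h3 : lb (st k).1.A u ∈ treeOf φ x' := by
    by_contra h
    rw [← rkb_eq_bot hφ hx'.1] at h
    exact hob (h2.symm.trans h)
  rw [← hlb]
  refine (mem_treeOf_congr hr ?_).1 h3
  have hll : ∀ (b : List ℕ → ℕ) (u : List ℕ), (lab b u).length = u.length := by
    intro b u
    induction u with
    | nil => rfl
    | cons a u ih => rw [lab, List.length_cons, ih, List.length_cons]
  have hl := hlen k
  show (lab _ u).length ≤ _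
  rw [hll]
  omega

end HJ
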