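import Pool.Agent.HJ.Rank

/-!
# Coanalytic uniformization (Novikov, Kondo)
-/

open Set PiNat MeasureTheory MP73ea52

namespace HJ

/-- the pairing used for the plane -/
def kj (r y : ℕ → ℕ) : ℕ → ℕ := fun n => Nat.pair (r n) (y n)

theorem kj_left {r y r' y' : ℕ → ℕ} (h : kj r y = kj r' y') : r = r' := by
  funext n
  have := congrFun h n
  exact (Nat.pair_eq_pair.1 this).1

theorem kj_right {r y r' y' : ℕ → ℕ} (h : kj r y = kj r' y') : y = y' := by
  funext n
  have := congrFun h n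
  exact (Nat.pair_eq_pair.1 this).2

theorem continuous_kj : Continuous fun p : (ℕ → ℕ) × (ℕ → ℕ) => kj p.1 p.2 := by
  refine continuous_pi fun n => ?_
  have h : Continuous fun q : ℕ × ℕ => Nat.pair q.1 q.2 := continuous_of_discreteTopology
  have h2 : Continuous fun p : (ℕ → ℕ) × (ℕ → ℕ) => (p.1 n, p.2 n) := by fun_prop
  exact h.comp h2

theorem res_kj {r y y' : ℕ → ℕ} {n : ℕ} (h : ∀ i < n, y i = y' i) :
    res (kj r y) n = res (kj r y') n := by
  rw [res_eq_res]
  intro i hi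
  simp only [kj, h i hi]

/-- enumeration of the finite sequences, beginning with the empty one -/
def tn (n : ℕ) : List ℕ := Denumerable.ofNat (List ℕ) n

theorem tn_zero : tn 0 = [] := Denumerable.list_ofNat_zero

theorem exists_tn (t : List ℕ) : ∃ n, tn n = t := ⟨Encodable.encode t, Denumerable.ofNat_encode t⟩

variable {φ : (ℕ → ℕ) → (ℕ → ℕ)}

/-- the key of a point: ranks of all nodes and values -/
noncomputable def key (φ : (ℕ → ℕ) → (ℕ → ℕ)) (r y : ℕ → ℕ) (n : ℕ) :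
    WithBot Ordinal.{0} ×ₗ ℕ := toLex (rkb φ (kj r y) (tn n), y n)

theorem key_rk {r y y' : ℕ → ℕ} {n : ℕ} (h : key φ r y n = key φ r y' n) :
    rkb φ (kj r y) (tn n) = rkb φ (kj r y') (tn n) :=
  congrArg Prod.fst (toLex.injective h)

theorem key_val {r y y' : ℕ → ℕ} {n : ℕ} (h : key φ r y n = key φ r y' n) : y n = y' n :=
  congrArg Prod.snd (toLex.injective h)

/-- the minimum for the lexicographic order of the keys -/
theorem exists_min (hφ : Continuous φ) {r : ℕ → ℕ} (hne : ∃ y, kj r y ∉ range φ) :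
    ∃ y, kj r y ∉ range φ ∧ ∀ y', kj r y' ∉ range φ → ∀ n,
      (∀ i < n, key φ r y' i = key φ r y i) → key φ r y n ≤ key φ r y' n := by
  classical
  let nx : ℕ → Set (ℕ → ℕ) → Set (ℕ → ℕ) := fun n S =>
    {y | y ∈ S ∧ ∀ y' ∈ S, key φ r y n ≤ key φ r y' n}
  let A : ℕ → Set (ℕ → ℕ) := fun n => Nat.rec {y | kj r y ∉ range φ} nx n
  have A0 : A 0 = {y | kj r y ∉ range φ} := rfl
  have AS : ∀ n, A (n + 1) = {y | y ∈ A n ∧ ∀ y' ∈ A n, key φ r y n ≤ key φ r y' n} := fun n => rfl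
  have Ane : ∀ n, (A n).Nonempty := by
    intro n
    induction n with
    | zero => exact hne
    | succ n ih =>
      have hwf : WellFounded (InvImage (· < ·) fun y => key φ r y n) :=
        InvImage.wf _ (wellFounded_lt (α := WithBot Ordinal.{0} ×ₗ ℕ))
      obtain ⟨y, hy, hmin⟩ := hwf.has_min (A n) ih
      exact ⟨y, hy, fun y' hy' => not_lt.1 (hmin y' hy')⟩
  have Amono : ∀ n m, n ≤ m → A m ⊆ A n := by
    intro n m h
    induction m, h using Nat.le_induction with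
    | base => exact Subset.rfl
    | succ m _ ih => exact fun y hy => ih hy.1
  have Akey : ∀ n y y', y ∈ A (n + 1) → y' ∈ A (n + 1) → key φ r y n = key φ r y' n :=
    fun n y y' hy hy' => le_antisymm (hy.2 y' hy'.1) (hy'.2 y hy.1)
  choose Y hY using Ane
  let ys : ℕ → ℕ := fun n => Y (n + 1) n
  have hval : ∀ m y, y ∈ A m → ∀ i < m, y i = ys i := by
    intro m y hy i hi
    have h1 : y i = Y (i + 1) i :=
      key_val (Akey i y (Y (i + 1)) (Amono (i + 1) m hi hy) (hY (i + 1)))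
    exact h1
  have hres : ∀ m n y, n ≤ m → y ∈ A m → res (kj r y) n = res (kj r ys) n := fun m n y hn hy =>
    res_kj fun i hi => hval m y hy i (lt_of_lt_of_le hi hn)
  have hout : ∀ m y, y ∈ A m → kj r y ∉ range φ := fun m y hy => Amono 0 m (Nat.zero_le _) hy
  -- the limit ranks
  let ρ : List ℕ → WithBot Ordinal.{0} := fun t =>
    rkb φ (kj r (Y (Encodable.encode t + 1))) t
  have hρ : ∀ t m y, Encodable.encode t < m → y ∈ A m → rkb φ (kj r y) t = ρ t := by
    intro t m y hm hy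
    have h1 := key_rk (Akey (Encodable.encode t) y (Y (Encodable.encode t + 1))
      (Amono _ m hm hy) (hY (Encodable.encode t + 1)))
    have h2 : tn (Encodable.encode t) = t := Denumerable.ofNat_encode t
    rw [h2] at h1
    exact h1
  have hmem : ∀ t m y, t.length ≤ m → y ∈ A m →
      (t ∈ treeOf φ (kj r y) ↔ t ∈ treeOf φ (kj r ys)) := fun t m y hm hy =>
    mem_treeOf_congr (hres m m y le_rfl hy) hm
  have hdec : ∀ a t, a :: t ∈ treeOf φ (kj r ys) → ρ (a :: t) < ρ t := by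
    intro a t h
    have ht := treeOf_tail φ _ a t h
    let m := Encodable.encode (a :: t) + Encodable.encode t + (a :: t).length + 1
    have hy := hY m
    rw [← hρ (a :: t) m (Y m) (by omega) hy, ← hρ t m (Y m) (by omega) hy]
    refine rkb_cons_lt hφ (hout m _ hy) ?_
    rw [hmem t m (Y m) ?_ hy]
    · exact ht
    · have : t.length ≤ (a :: t).length := by simp
      omega
  have hwf : WellFounded (Child (treeOf φ (kj r ys))) := by
    have h1 : WellFounded (InvImage (· < ·) ρ) :=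
      InvImage.wf _ (wellFounded_lt (α := WithBot Ordinal.{0}))
    refine Subrelation.wf ?_ h1
    rintro t s ⟨a, rfl, h⟩
    exact hdec a s h
  have hys : kj r ys ∉ range φ := (wf_treeOf_iff φ hφ _).1 hwf
  have hle : ∀ t, rkb φ (kj r ys) t ≤ ρ t := by
    intro t
    induction t using hwf.induction with
    | _ t ih =>
      by_contra hc
      rw [not_le] at hc
      obtain ⟨a, ha⟩ := exists_cons hφ hys hc
      have hat : a :: t ∈ treeOf φ (kj r ys) := by
        by_contra hat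
        have htm : t ∈ treeOf φ (kj r ys) := by
          by_contra htm
          rw [(rkb_eq_bot hφ hys).2 htm] at hc
          exact absurd hc not_lt_bot
        have hb := (rkb_eq_bot hφ hys).2 hat
        rw [hb] at ha
        have hρt : ρ t = ⊥ := le_bot_iff.1 ha
        let m := Encodable.encode t + t.length + 1
        have hy := hY m
        rw [← hρ t m (Y m) (by omega) hy, rkb_eq_bot hφ (hout m _ hy),
          hmem t m (Y m) (by omega) hy] at hρt
        exact hρt htm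
      have h1 := ih (a :: t) ⟨a, rfl, hat⟩
      exact absurd (lt_of_lt_of_le (lt_of_le_of_lt h1 (hdec a t hat)) ha) (lt_irrefl _)
  have hkle : ∀ n, key φ r ys n ≤ key φ r (Y (n + 1)) n := by
    intro n
    have hy := hY (n + 1)
    have h1 : rkb φ (kj r (Y (n + 1))) (tn n) = ρ (tn n) := by
      refine hρ (tn n) (n + 1) _ ?_ hy
      have : Encodable.encode (tn n) = n := Denumerable.encode_ofNat n
      omega
    have h2 := hle (tn n)
    rw [← h1] at h2
    rw [key, key, Prod.Lex.toLex_le_toLex]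
    rcases h2.lt_or_eq with h | h
    · exact Or.inl h
    · exact Or.inr ⟨h, le_rfl⟩
  have hysA : ∀ n, ys ∈ A n := by
    intro n
    induction n with
    | zero => exact hys
    | succ n ih => exact ⟨ih, fun y' hy' => (hkle n).trans ((hY (n + 1)).2 y' hy')⟩
  refine ⟨ys, hys, fun y' hy' n hn => ?_⟩
  have hy'A : ∀ i ≤ n, y' ∈ A i := by
    intro i
    induction i with
    | zero => exact fun _ => hy'
    | succ i ih =>
      intro hi
      refine ⟨ih (by omega), fun y'' hy'' => ?_⟩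
      rw [hn i (by omega)]
      exact (hysA (i + 1)).2 y'' hy''
  exact (hysA (n + 1)).2 y' (hy'A n le_rfl)

/-- the point `y'` beats the point `y` -/
def Beat (φ : (ℕ → ℕ) → (ℕ → ℕ)) (r y y' : ℕ → ℕ) : Prop :=
  ∃ n, (∀ i, i < n → (y' i = y i ∧ EmbAt φ (kj r y') (tn i) (kj r y) (tn i) ∧
      EmbAt φ (kj r y) (tn i) (kj r y') (tn i))) ∧
    ((tn n ∈ treeOf φ (kj r y) ∧ ∃ a, EmbAt φ (kj r y') (tn n) (kj r y) (a :: tn n)) ∨
      (EmbAt φ (kj r y') (tn n) (kj r y) (tn n) ∧ y' n < y n))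

theorem not_mem_of_beat (hφ : Continuous φ) {r y y' : ℕ → ℕ} (hy : kj r y ∉ range φ)
    (h : Beat φ r y y') : kj r y' ∉ range φ := by
  obtain ⟨n, h1, h2⟩ := h
  rcases Nat.eq_zero_or_pos n with rfl | hn
  · rw [tn_zero] at h2
    rcases h2 with ⟨-, a, h2⟩ | ⟨h2, -⟩
    · exact not_mem_of_embAt hφ hy h2
    · exact not_mem_of_embAt hφ hy h2
  · have h3 := (h1 0 hn).2.1
    rw [tn_zero] at h3
    exact not_mem_of_embAt hφ hy h3

theorem beat_iff (hφ : Continuous φ) {r y y' : ℕ → ℕ} (hy : kj r y ∉ range φ)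
    (hy' : kj r y' ∉ range φ) :
    Beat φ r y y' ↔ ∃ n, (∀ i < n, key φ r y' i = key φ r y i) ∧ key φ r y' n < key φ r y n := by
  have h1 : ∀ i, (y' i = y i ∧ EmbAt φ (kj r y') (tn i) (kj r y) (tn i) ∧
      EmbAt φ (kj r y) (tn i) (kj r y') (tn i)) ↔ key φ r y' i = key φ r y i := by
    intro i
    rw [embAt_iff hφ hy' hy, embAt_iff hφ hy hy']
    constructor
    · rintro ⟨h1, h2, h3⟩
      rw [key, key, le_antisymm h2 h3, h1]
    · intro h
      exact ⟨key_val h, (key_rk h).le, (key_rk h).ge⟩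
  have h2 : ∀ n, ((tn n ∈ treeOf φ (kj r y) ∧
      ∃ a, EmbAt φ (kj r y') (tn n) (kj r y) (a :: tn n)) ∨
      (EmbAt φ (kj r y') (tn n) (kj r y) (tn n) ∧ y' n < y n)) ↔
      key φ r y' n < key φ r y n := by
    intro n
    rw [key, key, Prod.Lex.toLex_lt_toLex, embAt_iff hφ hy' hy]
    simp only [embAt_iff hφ hy' hy]
    constructor
    · rintro (⟨h1, a, h2⟩ | ⟨h1, h2⟩)
      · exact Or.inl (lt_of_le_of_lt h2 (rkb_cons_lt hφ hy h1))
      · rcases h1.lt_or_eq with h | h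
        · exact Or.inl h
        · exact Or.inr ⟨h, h2⟩
    · rintro (h | ⟨h1, h2⟩)
      · left
        refine ⟨?_, exists_cons hφ hy h⟩
        by_contra hc
        rw [(rkb_eq_bot hφ hy).2 hc] at h
        exact absurd h not_lt_bot
      · exact Or.inr ⟨le_of_eq h1, h2⟩
  unfold Beat
  simp only [h1, h2]

theorem polish3 : PolishSpace (((ℕ → ℕ) × (ℕ → ℕ)) × (ℕ → ℕ)) := by
  have key : ∀ (A B : Type) [TopologicalSpace A] [TopologicalSpace B] [PolishSpace A]
      [PolishSpace B], PolishSpace (A × B) := by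
    intro A B _ _ _ _
    infer_instance
  exact key _ _

theorem analyticSet_beat (φ : (ℕ → ℕ) → (ℕ → ℕ)) :
    AnalyticSet {p : ((ℕ → ℕ) × (ℕ → ℕ)) × (ℕ → ℕ) | Beat φ p.1.1 p.1.2 p.2} := by
  have hP3 := polish3
  have c1 : Continuous fun p : ((ℕ → ℕ) × (ℕ → ℕ)) × (ℕ → ℕ) => kj p.1.1 p.1.2 :=
    continuous_kj.comp continuous_fst
  have c2 : Continuous fun p : ((ℕ → ℕ) × (ℕ → ℕ)) × (ℕ → ℕ) => kj p.1.1 p.2 :=
    continuous_kj.comp ((continuous_fst.comp continuous_fst).prodMk continuous_snd)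
  have hE1 : ∀ t n, AnalyticSet {p : ((ℕ → ℕ) × (ℕ → ℕ)) × (ℕ → ℕ) |
      EmbAt φ (kj p.1.1 p.2) t (kj p.1.1 p.1.2) n} := fun t n =>
    (analyticSet_embAt φ t n).preimage (c2.prodMk c1)
  have hE2 : ∀ t n, AnalyticSet {p : ((ℕ → ℕ) × (ℕ → ℕ)) × (ℕ → ℕ) |
      EmbAt φ (kj p.1.1 p.1.2) t (kj p.1.1 p.2) n} := fun t n =>
    (analyticSet_embAt φ t n).preimage (c1.prodMk c2)
  have hv1 : ∀ i, AnalyticSet {p : ((ℕ → ℕ) × (ℕ → ℕ)) × (ℕ → ℕ) | p.2 i = p.1.2 i} := by
    intro i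
    refine IsClosed.analyticSet (isClosed_eq ?_ ?_) <;> fun_prop
  have hv2 : ∀ i, AnalyticSet {p : ((ℕ → ℕ) × (ℕ → ℕ)) × (ℕ → ℕ) | p.2 i < p.1.2 i} := by
    intro i
    refine (IsOpen.measurableSet ?_).analyticSet
    have : {p : ((ℕ → ℕ) × (ℕ → ℕ)) × (ℕ → ℕ) | p.2 i < p.1.2 i} =
        (fun p : ((ℕ → ℕ) × (ℕ → ℕ)) × (ℕ → ℕ) => (p.2 i, p.1.2 i)) ⁻¹' {q | q.1 < q.2} := rfl
    rw [this]
    exact (isOpen_discrete _).preimage (by fun_prop)
  have hT : ∀ t, AnalyticSet {p : ((ℕ → ℕ) × (ℕ → ℕ)) × (ℕ → ℕ) |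
      t ∈ treeOf φ (kj p.1.1 p.1.2)} := fun t =>
    ((isOpen_treeOf φ t).preimage c1).measurableSet.analyticSet
  have heq : {p : ((ℕ → ℕ) × (ℕ → ℕ)) × (ℕ → ℕ) | Beat φ p.1.1 p.1.2 p.2} =
      ⋃ n : ℕ, ((⋂ i : ℕ, {p | i < n → (p.2 i = p.1.2 i ∧
          EmbAt φ (kj p.1.1 p.2) (tn i) (kj p.1.1 p.1.2) (tn i) ∧
          EmbAt φ (kj p.1.1 p.1.2) (tn i) (kj p.1.1 p.2) (tn i))}) ∩
        (({p | tn n ∈ treeOf φ (kj p.1.1 p.1.2)} ∩
          ⋃ a : ℕ, {p | EmbAt φ (kj p.1.1 p.2) (tn n) (kj p.1.1 p.1.2) (a :: tn n)}) ∪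
        ({p | EmbAt φ (kj p.1.1 p.2) (tn n) (kj p.1.1 p.1.2) (tn n)} ∩
          {p | p.2 n < p.1.2 n}))) := by
    ext p
    simp only [Beat, mem_iUnion, mem_inter_iff, mem_iInter, mem_union, Set.mem_ofPred_eq]
  rw [heq]
  refine AnalyticSet.iUnion fun n => AnalyticSet.inter' ?_ (AnalyticSet.union' ?_ ?_)
  · refine AnalyticSet.iInter fun i => ?_
    by_cases hi : i < n
    · simp only [hi, forall_const]
      exact AnalyticSet.inter' (hv1 i) (AnalyticSet.inter' (hE1 _ _) (hE2 _ _))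
    · simp only [hi, false_imp_iff]
      exact (isClosed_univ).analyticSet
  · exact AnalyticSet.inter' (hT _) (AnalyticSet.iUnion fun a => hE1 _ _)
  · exact AnalyticSet.inter' (hE1 _ _) (hv2 n)

/-- **Kondo's theorem**: a coanalytic subset of the plane contains a coanalytic set with the same
projection which is single-valued. -/
theorem kondo {P : Set ((ℕ → ℕ) × (ℕ → ℕ))} (hP : AnalyticSet Pᶜ) :
    ∃ Q ⊆ P, AnalyticSet Qᶜ ∧ Prod.fst '' Q = Prod.fst '' P ∧
      ∀ r y y', (r, y) ∈ Q → (r, y') ∈ Q → y = y' := by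
  rcases eq_empty_or_nonempty Pᶜ with he | hne
  · -- the whole plane
    have hP' : P = univ := compl_empty_iff.1 he
    refine ⟨{p | p.2 = 0}, by rw [hP']; exact subset_univ _, ?_, ?_, ?_⟩
    · have : IsClosed {p : (ℕ → ℕ) × (ℕ → ℕ) | p.2 = 0} := isClosed_eq continuous_snd continuous_const
      exact this.measurableSet.compl.analyticSet
    · rw [hP']
      ext r
      simp only [mem_image, image_univ, Prod.range_fst]
      exact ⟨fun _ => mem_univ _, fun _ => ⟨(r, 0), rfl, rfl⟩⟩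
    · rintro r y y' (h : y = 0) (h' : y' = 0)
      rw [h, h']
  · rw [AnalyticSet] at hP
    obtain ⟨f, hf, hfr⟩ := hP.resolve_left hne.ne_empty
    let φ : (ℕ → ℕ) → (ℕ → ℕ) := fun z => kj (f z).1 (f z).2
    have hφ : Continuous φ := continuous_kj.comp hf
    have hmem : ∀ r y, kj r y ∉ range φ ↔ (r, y) ∈ P := by
      intro r y
      rw [← not_iff_not, not_not, ← mem_compl_iff, ← hfr]
      constructor
      · rintro ⟨z, hz⟩
        exact ⟨z, Prod.ext (kj_left hz) (kj_right hz)⟩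
      · rintro ⟨z, hz⟩
        exact ⟨z, by simp only [φ, hz]⟩
    refine ⟨{p | kj p.1 p.2 ∉ range φ ∧ ¬ ∃ y', Beat φ p.1 p.2 y'}, ?_, ?_, ?_, ?_⟩
    · rintro ⟨r, y⟩ ⟨h, -⟩
      exact (hmem r y).1 h
    · have heq : {p : (ℕ → ℕ) × (ℕ → ℕ) | kj p.1 p.2 ∉ range φ ∧
          ¬ ∃ y', Beat φ p.1 p.2 y'}ᶜ = {p | kj p.1 p.2 ∈ range φ} ∪
          Prod.fst '' {p : ((ℕ → ℕ) × (ℕ → ℕ)) × (ℕ → ℕ) | Beat φ p.1.1 p.1.2 p.2} := by
        ext p
        constructor
        · intro h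
          by_contra hc
          apply h
          refine ⟨fun h1 => hc (Or.inl h1), ?_⟩
          rintro ⟨y', hy'⟩
          exact hc (Or.inr ⟨(p, y'), hy', rfl⟩)
        · rintro (h | ⟨⟨q, y'⟩, h, rfl⟩) ⟨h1, h2⟩
          · exact h1 h
          · exact h2 ⟨y', h⟩
      rw [heq]
      refine AnalyticSet.union' ?_ ?_
      · exact (analyticSet_range_of_polishSpace hφ).preimage continuous_kj
      · have hP3 := polish3
        exact (analyticSet_beat φ).image_of_continuous continuous_fst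
    · ext r
      constructor
      · rintro ⟨⟨r', y⟩, ⟨h, -⟩, rfl⟩
        exact ⟨(r', y), (hmem r' y).1 h, rfl⟩
      · rintro ⟨⟨r', y⟩, h, rfl⟩
        obtain ⟨ys, h1, h2⟩ := exists_min hφ (r := r') ⟨y, (hmem r' y).2 h⟩
        refine ⟨(r', ys), ⟨h1, ?_⟩, rfl⟩
        rintro ⟨y', hy'⟩
        have h3 := not_mem_of_beat hφ h1 hy'
        obtain ⟨n, h4, h5⟩ := (beat_iff hφ h1 h3).1 hy'
        exact absurd (h2 y' h3 n h4) (not_le.2 h5)
    · rintro r y y' ⟨h1, h2⟩ ⟨h3, h4⟩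
      by_contra hne'
      have hex : ∃ n, key φ r y n ≠ key φ r y' n := by
        by_contra hc
        push Not at hc
        exact hne' (funext fun n => key_val (hc n))
      have hmin := Nat.find_spec hex
      have hlt : ∀ i < Nat.find hex, key φ r y i = key φ r y' i := fun i hi =>
        not_not.1 (Nat.find_min hex hi)
      rcases lt_or_gt_of_ne hmin with h | h
      · exact h4 ⟨y, (beat_iff hφ h3 h1).2 ⟨_, hlt, h⟩⟩
      · exact h2 ⟨y', (beat_iff hφ h1 h3).2 ⟨_, fun i hi => (hlt i hi).symm, h⟩⟩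

end HJ
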