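import Pool.Agent.HJ.Defs

/-!
# Closure properties of the class of projections of coanalytic sets
-/

open Set PiNat MeasureTheory MP73ea52

namespace HJ

variable {X Y : Type} [TopologicalSpace X] [PolishSpace X] [TopologicalSpace Y] [PolishSpace Y]

/-- the pairing of Baire space with its square -/
def jn (p : (ℕ → ℕ) × (ℕ → ℕ)) : ℕ → ℕ := fun n => Nat.pair (p.1 n) (p.2 n)

/-- the inverse of the pairing -/
def sp (z : ℕ → ℕ) : (ℕ → ℕ) × (ℕ → ℕ) := (fun n => (z n).unpair.1, fun n => (z n).unpair.2)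

theorem continuous_jn : Continuous jn := by
  refine continuous_pi fun n => ?_
  have h : Continuous fun q : ℕ × ℕ => Nat.pair q.1 q.2 := continuous_of_discreteTopology
  have h1 : Continuous fun p : (ℕ → ℕ) × (ℕ → ℕ) => (p.1 n, p.2 n) :=
    ((continuous_apply n).comp continuous_fst).prodMk ((continuous_apply n).comp continuous_snd)
  exact h.comp h1

theorem continuous_sp : Continuous sp := by
  refine Continuous.prodMk (continuous_pi fun n => ?_) (continuous_pi fun n => ?_)
  · have h : Continuous fun q : ℕ => q.unpair.1 := continuous_of_discreteTopology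
    exact h.comp (continuous_apply n)
  · have h : Continuous fun q : ℕ => q.unpair.2 := continuous_of_discreteTopology
    exact h.comp (continuous_apply n)

theorem sp_jn (p : (ℕ → ℕ) × (ℕ → ℕ)) : sp (jn p) = p := by
  refine Prod.ext ?_ ?_
  · funext n
    simp [sp, jn]
  · funext n
    simp [sp, jn]

theorem jn_sp (z : ℕ → ℕ) : jn (sp z) = z := by
  funext n
  simp [sp, jn]

private theorem sig_preimage {f : X → Y} (hf : Continuous f) {S : Set Y} (h : AnalyticSet S) :
    AnalyticSet (f ⁻¹' S) := by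
  rcases (analyticSet_iff_exists_polishSpace_range.1 h) with ⟨β, hβ, hβP, g, hg, hgS⟩
  have h1 : IsClosed {p : X × β | f p.1 = g p.2} :=
    isClosed_eq (hf.comp continuous_fst) (hg.comp continuous_snd)
  have h2 : f ⁻¹' S = Prod.fst '' {p : X × β | f p.1 = g p.2} := by
    ext x
    constructor
    · intro hx
      have hx' : f x ∈ range g := hgS ▸ hx
      obtain ⟨b, hb⟩ := hx'
      exact ⟨(x, b), hb.symm, rfl⟩
    · rintro ⟨⟨x', b⟩, hb, rfl⟩
      show f x' ∈ S
      rw [← hgS]
      exact ⟨b, (hb : f x' = g b).symm⟩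
  rw [h2]
  exact (h1.analyticSet).image_of_continuous continuous_fst

omit [PolishSpace X] in
theorem S12.of_coanalytic {S : Set X} (h : AnalyticSet Sᶜ) : S12 S := by
  refine ⟨Prod.fst ⁻¹' S, ?_, ?_⟩
  · rcases (analyticSet_iff_exists_polishSpace_range.1 h) with ⟨β, hβ, hβP, g, hg, hgS⟩
    refine analyticSet_iff_exists_polishSpace_range.2
      ⟨β × (ℕ → ℕ), inferInstance, inferInstance, Prod.map g id, hg.prodMap continuous_id, ?_⟩
    rw [range_prodMap, hgS, range_id]
    ext p
    simp
  · ext x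
    constructor
    · rintro ⟨p, hp, rfl⟩
      exact hp
    · intro hx
      exact ⟨(x, fun _ => 0), hx, rfl⟩

theorem S12.of_analytic {S : Set X} (h : AnalyticSet S) : S12 S := by
  rw [AnalyticSet] at h
  rcases h with h | ⟨g, hg, hgS⟩
  · refine ⟨∅, ?_, by rw [h]; simp⟩
    rw [compl_empty]
    exact isClosed_univ.analyticSet
  · refine ⟨{p : X × (ℕ → ℕ) | p.1 = g p.2}, ?_, ?_⟩
    · have h1 : IsClosed {p : X × (ℕ → ℕ) | p.1 = g p.2} :=
        isClosed_eq continuous_fst (hg.comp continuous_snd)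
      borelize (X × (ℕ → ℕ))
      exact h1.measurableSet.compl.analyticSet
    · ext x
      constructor
      · rintro ⟨⟨x', z⟩, hz, rfl⟩
        rw [← hgS]
        exact ⟨z, (hz : x' = g z).symm⟩
      · intro hx
        rw [← hgS] at hx
        obtain ⟨z, hz⟩ := hx
        exact ⟨(x, z), hz.symm, rfl⟩

theorem S12.of_measurable [MeasurableSpace X] [BorelSpace X] {S : Set X} (h : MeasurableSet S) :
    S12 S := S12.of_analytic h.analyticSet

theorem S12.preimage {f : X → Y} (hf : Continuous f) {S : Set Y} (h : S12 S) :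
    S12 (f ⁻¹' S) := by
  obtain ⟨P, hP, hPS⟩ := h
  refine ⟨(fun p : X × (ℕ → ℕ) => (f p.1, p.2)) ⁻¹' P, ?_, ?_⟩
  · rw [← preimage_compl]
    exact sig_preimage ((hf.comp continuous_fst).prodMk continuous_snd) hP
  · ext x
    constructor
    · rintro ⟨p, hp, rfl⟩
      show f p.1 ∈ S
      rw [← hPS]
      exact ⟨_, hp, rfl⟩
    · intro hx
      have hx' : f x ∈ S := hx
      rw [← hPS] at hx'
      obtain ⟨⟨y, z⟩, hyz, hy⟩ := hx'
      have hy' : y = f x := hy
      exact ⟨(x, z), by show (f x, z) ∈ P; rw [← hy']; exact hyz, rfl⟩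

theorem S12.iUnion {ι : Type} [Countable ι] {S : ι → Set X} (h : ∀ i, S12 (S i)) :
    S12 (⋃ i, S i) := by
  rcases isEmpty_or_nonempty ι with hι | hι
  · rw [iUnion_of_empty]
    exact S12.of_analytic analyticSet_empty
  obtain ⟨e, he⟩ := exists_surjective_nat ι
  choose P hP hPS using h
  let g : X × (ℕ → ℕ) → X × (ℕ → ℕ) := fun p => (p.1, fun n => p.2 (n + 1))
  have hg : Continuous g := continuous_fst.prodMk
    (continuous_pi fun n => (continuous_apply (n + 1)).comp continuous_snd)
  have h0 : Continuous fun p : X × (ℕ → ℕ) => p.2 0 := (continuous_apply 0).comp continuous_snd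
  refine ⟨{p | g p ∈ P (e (p.2 0))}, ?_, ?_⟩
  · have h1 : {p | g p ∈ P (e (p.2 0))}ᶜ =
        ⋃ k : ℕ, ({p : X × (ℕ → ℕ) | p.2 0 = k} ∩ g ⁻¹' (P (e k))ᶜ) := by
      ext p
      simp only [mem_compl_iff, mem_ofPred_eq, mem_iUnion, mem_inter_iff, mem_preimage]
      constructor
      · intro hp
        exact ⟨_, rfl, hp⟩
      · rintro ⟨k, hk, hp⟩
        rw [hk]
        exact hp
    rw [h1]
    refine AnalyticSet.iUnion fun k => ?_
    refine AnalyticSet.inter' ?_ (sig_preimage hg (hP (e k)))
    exact (isClosed_eq h0 continuous_const).analyticSet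
  · ext x
    constructor
    · rintro ⟨⟨x', z⟩, hz, rfl⟩
      refine mem_iUnion.2 ⟨e (z 0), ?_⟩
      rw [← hPS]
      exact ⟨_, hz, rfl⟩
    · intro hx
      obtain ⟨i, hi⟩ := mem_iUnion.1 hx
      obtain ⟨k, rfl⟩ := he i
      rw [← hPS] at hi
      obtain ⟨⟨x', z⟩, hz, hx'⟩ := hi
      have hx'' : x' = x := hx'
      subst hx''
      refine ⟨(x', fun n => Nat.casesOn n k z), ?_, rfl⟩
      exact hz

theorem S12.iInter {ι : Type} [Countable ι] {S : ι → Set X} (h : ∀ i, S12 (S i)) :
    S12 (⋂ i, S i) := by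
  rcases isEmpty_or_nonempty ι with hι | hι
  · rw [iInter_of_empty]
    exact S12.of_analytic isClosed_univ.analyticSet
  obtain ⟨e, he⟩ := exists_surjective_nat ι
  choose P hP hPS using h
  let g : ℕ → X × (ℕ → ℕ) → X × (ℕ → ℕ) := fun k p => (p.1, fun n => p.2 (Nat.pair k n))
  have hg : ∀ k, Continuous (g k) := fun k => continuous_fst.prodMk
    (continuous_pi fun n => (continuous_apply (Nat.pair k n)).comp continuous_snd)
  refine ⟨{p | ∀ k, g k p ∈ P (e k)}, ?_, ?_⟩
  · have h1 : {p | ∀ k, g k p ∈ P (e k)}ᶜ = ⋃ k : ℕ, (g k ⁻¹' (P (e k))ᶜ) := by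
      ext p
      simp
    rw [h1]
    exact AnalyticSet.iUnion fun k => sig_preimage (hg k) (hP (e k))
  · ext x
    constructor
    · rintro ⟨⟨x', z⟩, hz, rfl⟩
      refine mem_iInter.2 fun i => ?_
      obtain ⟨k, rfl⟩ := he i
      rw [← hPS]
      exact ⟨_, hz k, rfl⟩
    · intro hx
      have hx' : ∀ k, ∃ z : ℕ → ℕ, (x, z) ∈ P (e k) := by
        intro k
        have := mem_iInter.1 hx (e k)
        rw [← hPS] at this
        obtain ⟨⟨x', z⟩, hz, hx'⟩ := this
        have hx'' : x' = x := hx'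
        subst hx''
        exact ⟨z, hz⟩
      choose z hz using hx'
      refine ⟨(x, fun j => z j.unpair.1 j.unpair.2), ?_, rfl⟩
      intro k
      show (x, fun n => z (Nat.pair k n).unpair.1 (Nat.pair k n).unpair.2) ∈ P (e k)
      simp only [Nat.unpair_pair]
      exact hz k

theorem S12.inter {S S' : Set X} (h : S12 S) (h' : S12 S') : S12 (S ∩ S') := by
  rw [inter_eq_iInter]
  exact S12.iInter fun b => by cases b <;> assumption

theorem S12.union {S S' : Set X} (h : S12 S) (h' : S12 S') : S12 (S ∪ S') := by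
  rw [union_eq_iUnion]
  exact S12.iUnion fun b => by cases b <;> assumption

/-- the sets of the σ-algebra generated by the analytic sets, and their complements, are
projections of coanalytic sets -/
theorem S12.of_GA {S : Set (ℕ → ℕ)} (h : MeasurableSet[GA] S) : S12 S ∧ S12 Sᶜ := by
  induction S, h using MeasurableSpace.generateFrom_induction with
  | hC t ht _ =>
    exact ⟨S12.of_analytic ht, S12.of_coanalytic (by rw [compl_compl]; exact ht)⟩
  | empty => exact ⟨S12.of_analytic analyticSet_empty, by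
      rw [compl_empty]; exact S12.of_analytic isClosed_univ.analyticSet⟩
  | compl t _ ih => exact ⟨ih.2, by rw [compl_compl]; exact ih.1⟩
  | iUnion f _ ih => exact ⟨S12.iUnion fun i => (ih i).1, by
      rw [compl_iUnion]; exact S12.iInter fun i => (ih i).2⟩

end HJ
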