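import Pool.Agent.HJ.Rank
import Pool.Agent.HJ.Kondo
import Pool.Agent.HJ.Sig

/-!
# The countability lemma: definable families indexed by countable ordinals are countable
-/

open Set PiNat MeasureTheory MP73ea52

namespace HJ

variable {φ : (ℕ → ℕ) → (ℕ → ℕ)}

open Classical in
/-- a set of codes as a point of Baire space -/
noncomputable def chr {J : Type} [Encodable J] (S : Set J) : ℕ → ℕ :=
  fun n => if ∃ j ∈ S, Encodable.encode j = n then 1 else 0

theorem chr_encode {J : Type} [Encodable J] (S : Set J) (j : J) :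
    chr S (Encodable.encode j) = 1 ↔ j ∈ S := by
  classical
  unfold chr
  constructor
  · intro h
    by_contra hj
    rw [if_neg] at h
    · exact absurd h (by decide)
    · rintro ⟨j', hj', he⟩
      rw [Encodable.encode_injective he] at hj'
      exact hj hj'
  · intro h
    rw [if_pos ⟨j, h, rfl⟩]

theorem chr_injective {J : Type} [Encodable J] : Function.Injective (chr (J := J)) := by
  intro S S' h
  ext j
  rw [← chr_encode, ← chr_encode S', h]

theorem S12_coord {J K : Type} [Encodable J] (D : K → (ℕ → ℕ) → Set J)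
    (hm : ∀ k j, MeasurableSet[GA] {w | j ∈ D k w}) (k : K) (n : ℕ) :
    S12 {q : (ℕ → ℕ) × (ℕ → ℕ) | q.1 n = chr (D k q.2) n} := by
  classical
  have hval : ∀ i : ℕ, S12 {q : (ℕ → ℕ) × (ℕ → ℕ) | q.1 n = i} := by
    intro i
    refine S12.of_measurable ?_
    exact (measurableSet_singleton i).preimage ((measurable_pi_apply n).comp measurable_fst)
  by_cases h : ∃ j : J, Encodable.encode j = n
  · obtain ⟨j, rfl⟩ := h
    have h1 := S12.of_GA (hm k j)
    have h2 : S12 {q : (ℕ → ℕ) × (ℕ → ℕ) | j ∈ D k q.2} := h1.1.preimage continuous_snd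
    have h3 : S12 {q : (ℕ → ℕ) × (ℕ → ℕ) | j ∉ D k q.2} := h1.2.preimage continuous_snd
    have heq : {q : (ℕ → ℕ) × (ℕ → ℕ) | q.1 (Encodable.encode j) =
        chr (D k q.2) (Encodable.encode j)} =
        ({q : (ℕ → ℕ) × (ℕ → ℕ) | q.1 (Encodable.encode j) = 1} ∩ {q | j ∈ D k q.2}) ∪
        ({q : (ℕ → ℕ) × (ℕ → ℕ) | q.1 (Encodable.encode j) = 0} ∩ {q | j ∉ D k q.2}) := by
      ext q
      simp only [mem_union, mem_inter_iff, Set.mem_ofPred_eq]
      by_cases hj : j ∈ D k q.2
      · rw [(chr_encode (D k q.2) j).2 hj]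
        simp [hj]
      · have h0 : chr (D k q.2) (Encodable.encode j) = 0 := by
          unfold chr
          rw [if_neg]
          rintro ⟨j', hj', he⟩
          rw [Encodable.encode_injective he] at hj'
          exact hj hj'
        rw [h0]
        simp [hj]
    rw [heq]
    exact ((hval 1).inter h2).union ((hval 0).inter h3)
  · have heq : {q : (ℕ → ℕ) × (ℕ → ℕ) | q.1 n = chr (D k q.2) n} =
        {q : (ℕ → ℕ) × (ℕ → ℕ) | q.1 n = 0} := by
      ext q
      have h0 : chr (D k q.2) n = 0 := by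
        unfold chr
        rw [if_neg]
        rintro ⟨j, -, he⟩
        exact h ⟨j, he⟩
      simp only [Set.mem_ofPred_eq]
      rw [h0]
    rw [heq]
    exact hval 0

/-- (1) of the proof.  Under the perfect set property a family of subsets of a countable set
which is measurably indexed by `C`, and countable below every rank, is countable. -/
theorem countable_family (hφ : Continuous φ) (hC : ¬ MeasurableSet (range φ)ᶜ) (hP : PSP)
    {K J : Type} [Countable K] [Countable J] (D : K → (ℕ → ℕ) → Set J)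
    (hm : ∀ k j, MeasurableSet[GA] {w | j ∈ D k w})
    (hs : ∀ x₀ ∉ range φ,
      {S | ∃ k w, w ∉ range φ ∧ rkb φ w [] ≤ rkb φ x₀ [] ∧ S = D k w}.Countable) :
    {S | ∃ k w, w ∉ range φ ∧ S = D k w}.Countable := by
  classical
  by_contra hunc
  have : Encodable J := Encodable.ofCountable J
  -- the relation
  set Φ : Set ((ℕ → ℕ) × (ℕ → ℕ)) := {q | q.2 ∉ range φ ∧ ∃ k, q.1 = chr (D k q.2)} with hΦ
  have hΦ12 : S12 Φ := by
    have heq : Φ = (Prod.snd ⁻¹' (range φ)ᶜ) ∩ ⋃ k, ⋂ n,
        {q : (ℕ → ℕ) × (ℕ → ℕ) | q.1 n = chr (D k q.2) n} := by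
      ext q
      simp only [hΦ, mem_inter_iff, mem_preimage, mem_compl_iff, mem_iUnion, mem_iInter,
        Set.mem_ofPred_eq]
      refine and_congr_right fun _ => exists_congr fun k => ?_
      exact ⟨fun h n => congrFun h n, fun h => funext h⟩
    rw [heq]
    refine S12.inter ?_ (S12.iUnion fun k => S12.iInter fun n => S12_coord D hm k n)
    refine S12.of_coanalytic ?_
    rw [← preimage_compl, compl_compl]
    exact (analyticSet_range_of_polishSpace hφ).preimage continuous_snd
  obtain ⟨P, hPc, hPΦ⟩ := hΦ12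
  -- the plane set
  let g : (ℕ → ℕ) × (ℕ → ℕ) → ((ℕ → ℕ) × (ℕ → ℕ)) × (ℕ → ℕ) :=
    fun q => ((q.1, (sp q.2).1), (sp q.2).2)
  have hg : Continuous g := by
    have h1 : Continuous fun q : (ℕ → ℕ) × (ℕ → ℕ) => sp q.2 := continuous_sp.comp continuous_snd
    exact (continuous_fst.prodMk (continuous_fst.comp h1)).prodMk (continuous_snd.comp h1)
  have hP'c : AnalyticSet (g ⁻¹' P)ᶜ := by
    rw [← preimage_compl]
    exact hPc.preimage hg
  obtain ⟨Q, hQP, hQc, hQf, hQs⟩ := kondo hP'c
  have hQΦ : ∀ q ∈ Q, (q.1, (sp q.2).1) ∈ Φ := by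
    intro q hq
    rw [← hPΦ]
    exact ⟨g q, hQP hq, rfl⟩
  have hQunc : ¬ Q.Countable := by
    intro hQ
    apply hunc
    have h1 := hQ.image Prod.fst
    rw [hQf] at h1
    refine (h1.preimage_of_injOn (f := chr (J := J)) chr_injective.injOn).mono ?_
    rintro S ⟨k, w, hw, rfl⟩
    have h2 : (chr (D k w), w) ∈ Φ := ⟨hw, k, rfl⟩
    rw [← hPΦ] at h2
    obtain ⟨⟨⟨r, w'⟩, z⟩, hz, he⟩ := h2
    refine ⟨(r, jn (w', z)), ?_, ?_⟩
    · show g (r, jn (w', z)) ∈ P
      simp only [g, sp_jn]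
      exact hz
    · exact (Prod.mk.inj he).1
  have hC'c : Coanalytic (sp ⁻¹' Q) := by
    show AnalyticSet (sp ⁻¹' Q)ᶜ
    rw [← preimage_compl]
    exact hQc.preimage continuous_sp
  have hC'unc : ¬ (sp ⁻¹' Q).Countable := by
    intro h
    apply hQunc
    refine (h.image sp).mono ?_
    intro q hq
    exact ⟨jn q, by rw [mem_preimage, sp_jn]; exact hq, sp_jn q⟩
  obtain ⟨h, hc, hi, hh⟩ := cantor_of_hasPerfect (hP _ hC'c hC'unc)
  -- the bound
  let wf : (ℕ → Bool) → (ℕ → ℕ) := fun b => (sp (sp (h b)).2).1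
  have hwc : Continuous wf :=
    continuous_fst.comp (continuous_sp.comp (continuous_snd.comp (continuous_sp.comp hc)))
  have hwA : AnalyticSet (range wf) := (isCompact_range hwc).isClosed.analyticSet
  obtain ⟨x₀, hx₀, hb⟩ := exists_bound hφ hC hwA (by
    rintro _ ⟨b, rfl⟩
    exact (hQΦ _ (hh b)).1)
  let rf : (ℕ → Bool) → (ℕ → ℕ) := fun b => (sp (h b)).1
  have hri : Function.Injective rf := by
    intro b b' hbb
    apply hi
    have h1 : sp (h b) = sp (h b') := by
      refine Prod.ext hbb ?_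
      refine hQs (sp (h b)).1 _ _ (hh b) ?_
      have : ((sp (h b)).1, (sp (h b')).2) = sp (h b') := Prod.ext hbb rfl
      rw [this]
      exact hh b'
    rw [← jn_sp (h b), h1, jn_sp]
  refine not_countable_range_cantor hri (fun b => ?_) ((hs x₀ hx₀).image (chr (J := J)))
  obtain ⟨h1, k, h2⟩ := hQΦ _ (hh b)
  exact ⟨D k (wf b), ⟨k, wf b, h1, (hb _ ⟨b, rfl⟩).le, rfl⟩, h2.symm⟩

end HJ
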