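import Pool.Agent.MP_73ea52_lc.Main

/-!
# Coanalytic sets with prescribed ranks: definitions

Throughout `C = (range φ)ᶜ` for a continuous `φ`, and `treeOf φ x` is the tree of `x`
(finite sequences are lists with the most recent entry first); `x ∈ C` iff it is well-founded.
-/

open Set PiNat MeasureTheory MP73ea52

namespace HJ

/-- the part of the tree of `x` above the node `t` -/
def above (φ : (ℕ → ℕ) → (ℕ → ℕ)) (x : ℕ → ℕ) (t : List ℕ) : Set (List ℕ) :=
  {u | u ++ t ∈ treeOf φ x}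

/-- the tree of `x` above `t` embeds in the tree of `w` above `n` -/
def EmbAt (φ : (ℕ → ℕ) → (ℕ → ℕ)) (x : ℕ → ℕ) (t : List ℕ) (w : ℕ → ℕ) (n : List ℕ) : Prop :=
  Emb (above φ x t) (treeOf φ w) n

open Classical in
/-- the rank of the node `t` in the tree of `x`; it is `⊥` if `t` is not a node -/
noncomputable def rkb (φ : (ℕ → ℕ) → (ℕ → ℕ)) (x : ℕ → ℕ) (t : List ℕ) : WithBot Ordinal.{0} :=
  if h : WellFounded (Child (treeOf φ x)) ∧ t ∈ treeOf φ x then
    ((rk h.1 t : Ordinal.{0}) : WithBot Ordinal.{0}) else ⊥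

/-- a condition: finitely many nodes with prescribed ranks -/
abbrev Cond : Type 1 := List (List ℕ × WithBot Ordinal.{0})

/-- the points of `C` obeying the condition `σ` -/
def pts (φ : (ℕ → ℕ) → (ℕ → ℕ)) (σ : Cond) : Set (ℕ → ℕ) :=
  {x | x ∉ range φ ∧ ∀ q ∈ σ, rkb φ x q.1 = q.2}

/-- the initial segments of the points of `A` -/
def tr (A : Set (ℕ → ℕ)) : Set (List ℕ) := {s | ∃ x ∈ A, res x s.length = s}

/-- the branches of `T` -/
def body (T : Set (List ℕ)) : Set (ℕ → ℕ) := {e | ∀ n, res e n ∈ T}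

/-- the tree of the points whose nodes `q.1` have the ranks of the nodes `q.2` of `w`, `q ∈ p` -/
def TP (φ : (ℕ → ℕ) → (ℕ → ℕ)) (w : ℕ → ℕ) (p : List (List ℕ × List ℕ)) : Set (List ℕ) :=
  {s | ∃ x, (∀ q ∈ p, EmbAt φ x q.1 w q.2 ∧ EmbAt φ w q.2 x q.1) ∧ res x s.length = s}

/-- the one-step refinements: `(s, i, a)` such that `T i` is the tree of the refinement of `σ` by
`(a :: v, o)` with `γ ≤ o` and by `(t, o')`, and `s ∈ T i` -/
def G (φ : (ℕ → ℕ) → (ℕ → ℕ)) (T : ℕ → Set (List ℕ)) (σ : Cond) (v : List ℕ)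
    (γ : WithBot Ordinal.{0}) (t : List ℕ) : Set (List ℕ × ℕ × ℕ) :=
  {q | ∃ o o', γ ≤ o ∧ T q.2.1 = tr (pts φ (σ ++ [(q.2.2 :: v, o), (t, o')])) ∧ q.1 ∈ T q.2.1}

/-- the σ-algebra generated by the analytic sets -/
def GA : MeasurableSpace (ℕ → ℕ) := MeasurableSpace.generateFrom {S | AnalyticSet S}

/-- projections of coanalytic sets -/
def S12 {X : Type} [TopologicalSpace X] (S : Set X) : Prop :=
  ∃ P : Set (X × (ℕ → ℕ)), AnalyticSet Pᶜ ∧ Prod.fst '' P = S

/-- all the parameters of the decoder, with the properties the coder needs -/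
structure Code (φ : (ℕ → ℕ) → (ℕ → ℕ)) where
  /-- enumeration of the trees of conditions -/
  T : ℕ → Set (List ℕ)
  /-- the guessed point outside `C` -/
  eps : ℕ → List ℕ → (ℕ → ℕ)
  /-- the message read at a level: `((index, label), value)` -/
  rho : ℕ → (ℕ × ℕ) × ℕ
  /-- the index at the start -/
  i0 : ℕ
  /-- lower bound for the ranks used -/
  b0 : WithBot Ordinal.{0}
  eps_mem : ∀ i s, eps i s ∈ range φ
  start : ∀ x ∉ range φ, ∃ w ∉ range φ, rkb φ x [] ≤ rkb φ w [] ∧ b0 ≤ rkb φ w [] ∧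
    T i0 = tr (pts φ [([], rkb φ w [])])
  step : ∀ (σ : Cond) (β : WithBot Ordinal.{0}) (i : ℕ) (s v t : List ℕ)
    (γ o : WithBot Ordinal.{0}) (y : ℕ), ([], β) ∈ σ → b0 ≤ β → T i = tr (pts φ σ) → s ∈ T i →
    (v, o) ∈ σ → γ < o →
    res (eps i s) s.length = s ∧ ∃ m ≥ s.length, ∃ c, c ≠ eps i s m ∧ ∃ i' a o₁ o₂, γ ≤ o₁ ∧
      T i' = tr (pts φ (σ ++ [(a :: v, o₁), (t, o₂)])) ∧ c :: res (eps i s) m ∈ T i' ∧
      rho m = ((i', a), y)

namespace Code

variable {φ : (ℕ → ℕ) → (ℕ → ℕ)} (c : Code φ)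

/-- the level at which `x` leaves the guessed point in the state `q = (index, length)` -/
noncomputable def lev (x : ℕ → ℕ) (q : ℕ × ℕ) : ℕ := firstDiff x (c.eps q.1 (res x q.2))

/-- the states of the decoder -/
noncomputable def st (x : ℕ → ℕ) : ℕ → ℕ × ℕ
  | 0 => (c.i0, 0)
  | k + 1 => ((c.rho (c.lev x (st x k))).1.1, max (st x k).2 (c.lev x (st x k) + 1))

/-- the label read at step `k` -/
noncomputable def outA (x : ℕ → ℕ) (k : ℕ) : ℕ := (c.rho (c.lev x (c.st x k))).1.2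

/-- the value read at step `k` -/
noncomputable def outY (x : ℕ → ℕ) (k : ℕ) : ℕ := (c.rho (c.lev x (c.st x k))).2

end Code

end HJ
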