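import Pool.Agent.HJ.Rank

/-!
# A countable set of points outside `C` which is dense in the trees of conditions
-/

open Set PiNat MeasureTheory MP73ea52

namespace HJ

variable {φ : (ℕ → ℕ) → (ℕ → ℕ)}

private theorem isClosed_body (T : Set (List ℕ)) : IsClosed (body T) := by
  have : body T = ⋂ n, {e : ℕ → ℕ | res e n ∈ T} := by
    ext e
    simp only [body, mem_iInter, Set.mem_ofPred_eq]
  rw [this]
  refine isClosed_iInter fun n => ?_
  rw [← isOpen_compl_iff]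
  have h2 : {e : ℕ → ℕ | res e n ∈ T}ᶜ = ⋃ t ∈ Tᶜ, {e : ℕ → ℕ | res e n = t} := by
    ext e
    simp only [mem_compl_iff, mem_iUnion, Set.mem_ofPred_eq, exists_prop, exists_eq_right']
  rw [h2]
  exact isOpen_biUnion fun t _ => isOpen_resEq n t

private theorem exists_bound_countable (hφ : Continuous φ) (hC : ¬ MeasurableSet (range φ)ᶜ)
    {A : Set (ℕ → ℕ)} (hA : A.Countable) (hAC : ∀ a ∈ A, a ∉ range φ) :
    ∃ x₀ ∉ range φ, ∀ a ∈ A, rkb φ a [] < rkb φ x₀ [] :=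
  exists_bound hφ hC hA.measurableSet.analyticSet hAC

private theorem exists_point (hC : ¬ MeasurableSet (range φ)ᶜ) : ∃ x, x ∉ range φ := by
  by_contra h
  push Not at h
  apply hC
  have : (range φ)ᶜ = ∅ := by
    ext x
    simp only [mem_compl_iff, mem_empty_iff_false, iff_false, not_not]
    exact h x
  rw [this]
  exact MeasurableSet.empty

private theorem mem_body_tr {A : Set (ℕ → ℕ)} {x : ℕ → ℕ} (hx : x ∈ A) : x ∈ body (tr A) :=
  fun n => ⟨x, hx, by rw [res_length]⟩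

/-- (3) of the proof -/
theorem exists_dense (hφ : Continuous φ) (hC : ¬ MeasurableSet (range φ)ᶜ)
    (hR : {S | ∃ σ : Cond, (∃ β, ([], β) ∈ σ) ∧ S = tr (pts φ σ)}.Countable) :
    ∃ x₀ ∉ range φ, ∃ E ⊆ range φ, E.Countable ∧ ∀ (σ : Cond) (β : WithBot Ordinal.{0}),
      ([], β) ∈ σ → rkb φ x₀ [] ≤ β → ∀ s ∈ tr (pts φ σ),
      ∃ e ∈ E, e ∈ body (tr (pts φ σ)) ∧ res e s.length = s := by
  classical
  obtain ⟨p₀, hp₀⟩ := exists_point hC
  let B : Set (List ℕ) × List ℕ → Set (ℕ → ℕ) :=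
    fun q => {e | e ∈ body q.1 ∧ res e q.2.length = q.2}
  have hB : ∀ q, AnalyticSet (B q) := fun q =>
    ((isClosed_body q.1).measurableSet.inter (isOpen_resEq q.2.length q.2).measurableSet).analyticSet
  have hf : ∀ q, ∃ x, x ∉ range φ ∧ ((∀ a ∈ B q, a ∉ range φ) →
      ∀ a ∈ B q, rkb φ a [] < rkb φ x []) := by
    intro q
    by_cases h : ∀ a ∈ B q, a ∉ range φ
    · obtain ⟨x, hx, hx'⟩ := exists_bound hφ hC (hB q) h
      exact ⟨x, hx, fun _ => hx'⟩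
    · exact ⟨p₀, hp₀, fun h' => absurd h' h⟩
  choose f hf1 hf2 using hf
  have hg : ∀ q, ∃ e ∈ range φ, (∃ a ∈ B q, a ∈ range φ) → e ∈ B q := by
    intro q
    by_cases h : ∃ a ∈ B q, a ∈ range φ
    · obtain ⟨a, ha, ha'⟩ := h
      exact ⟨a, ha', fun _ => ha⟩
    · exact ⟨φ 0, mem_range_self _, fun h' => absurd h' h⟩
  choose g hg1 hg2 using hg
  let R : Set (Set (List ℕ)) := {S | ∃ σ : Cond, (∃ β, ([], β) ∈ σ) ∧ S = tr (pts φ σ)}
  have hRc : (R ×ˢ (univ : Set (List ℕ))).Countable := Set.Countable.prod hR countable_univ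
  obtain ⟨x₀, hx₀, hb⟩ := exists_bound_countable hφ hC (hRc.image f) (by
    rintro _ ⟨q, -, rfl⟩
    exact hf1 q)
  refine ⟨x₀, hx₀, g '' (R ×ˢ (univ : Set (List ℕ))), ?_, hRc.image g, ?_⟩
  · rintro _ ⟨q, -, rfl⟩
    exact hg1 q
  · intro σ β hβ hle s hs
    have hmem : (tr (pts φ σ), s) ∈ R ×ˢ (univ : Set (List ℕ)) :=
      ⟨⟨σ, ⟨β, hβ⟩, rfl⟩, mem_univ _⟩
    obtain ⟨x, hx, hxs⟩ := hs
    have hxB : x ∈ B (tr (pts φ σ), s) := ⟨mem_body_tr hx, hxs⟩
    have hex : ∃ a ∈ B (tr (pts φ σ), s), a ∈ range φ := by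
      by_contra hcon
      push Not at hcon
      have h1 := hf2 _ hcon x hxB
      have h2 := hb _ (mem_image_of_mem f hmem)
      have h3 : rkb φ x [] = β := hx.2 _ hβ
      exact absurd (lt_of_lt_of_le (h1.trans h2) (hle.trans h3.ge)) (lt_irrefl _)
    exact ⟨g (tr (pts φ σ), s), mem_image_of_mem g hmem, (hg2 _ hex).1, (hg2 _ hex).2⟩

/-- (4) of the proof -/
theorem exists_leave {σ : Cond} {e : ℕ → ℕ} (he : e ∈ range φ) (heb : e ∈ body (tr (pts φ σ)))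
    (m₀ : ℕ) : ∃ m ≥ m₀, ∃ c, c ≠ e m ∧ c :: res e m ∈ tr (pts φ σ) := by
  obtain ⟨x, hx, hxe⟩ := heb m₀
  rw [res_length] at hxe
  have hne : x ≠ e := by
    rintro rfl
    exact hx.1 he
  refine ⟨firstDiff x e, ?_, x (firstDiff x e), apply_firstDiff_ne hne, x, hx, ?_⟩
  · by_contra hlt
    exact apply_firstDiff_ne hne (res_eq_res.1 hxe (not_le.1 hlt))
  · have h1 : res x (firstDiff x e) = res e (firstDiff x e) :=
      res_eq_res.2 fun j hj => apply_eq_of_lt_firstDiff hj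
    rw [List.length_cons, res_length, res_succ, h1]

/-- the start: one tree is the tree of `[([], β)]` for unboundedly many `β` -/
theorem exists_start (hφ : Continuous φ) (hC : ¬ MeasurableSet (range φ)ᶜ)
    (hR : {S | ∃ σ : Cond, (∃ β, ([], β) ∈ σ) ∧ S = tr (pts φ σ)}.Countable) :
    ∃ S, ∀ x ∉ range φ, ∃ w ∉ range φ, rkb φ x [] ≤ rkb φ w [] ∧
      S = tr (pts φ [([], rkb φ w [])]) := by
  by_contra hcon
  push Not at hcon
  choose f hf1 hf2 using hcon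
  obtain ⟨x₀, hx₀, hb⟩ := exists_bound_countable hφ hC (hR.image f) (by
    rintro _ ⟨q, -, rfl⟩
    exact hf1 q)
  have hmem : tr (pts φ [([], rkb φ x₀ [])]) ∈
      {S | ∃ σ : Cond, (∃ β, ([], β) ∈ σ) ∧ S = tr (pts φ σ)} :=
    ⟨[([], rkb φ x₀ [])], ⟨rkb φ x₀ [], List.mem_singleton.2 rfl⟩, rfl⟩
  exact hf2 _ x₀ hx₀ (hb _ (mem_image_of_mem f hmem)).le rfl

end HJ
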