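import Pool.Agent.HJ.FamR

/-!
# The one-step refinements of conditions are countably many
-/

open Set PiNat MeasureTheory MP73ea52

namespace HJ

variable {φ : (ℕ → ℕ) → (ℕ → ℕ)}

namespace FamG

theorem pts_append (σ τ : Cond) (x : ℕ → ℕ) :
    x ∈ pts φ (σ ++ τ) ↔ x ∈ pts φ σ ∧ ∀ q ∈ τ, rkb φ x q.1 = q.2 := by
  constructor
  · intro h
    exact ⟨⟨h.1, fun q hq => h.2 q (List.mem_append_left _ hq)⟩,
      fun q hq => h.2 q (List.mem_append_right _ hq)⟩
  · rintro ⟨h1, h2⟩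
    refine ⟨h1.1, fun q hq => ?_⟩
    rcases List.mem_append.1 hq with hq | hq
    · exact h1.2 q hq
    · exact h2 q hq

theorem G_congr (T : ℕ → Set (List ℕ)) {σ σ' : Cond} (h : pts φ σ = pts φ σ') (v : List ℕ)
    (γ : WithBot Ordinal.{0}) (t : List ℕ) : G φ T σ v γ t = G φ T σ' v γ t := by
  have h1 : ∀ τ : Cond, pts φ (σ ++ τ) = pts φ (σ' ++ τ) := by
    intro τ
    ext x
    rw [pts_append, pts_append, h]
  unfold G
  simp only [h1]

/-- the condition of `w` at the nodes of `F` -/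
noncomputable def cnd (φ : (ℕ → ℕ) → (ℕ → ℕ)) (F : List (List ℕ)) (w : ℕ → ℕ) : Cond :=
  (diag F).map fun q => (q.1, rkb φ w q.2)

/-- the family in terms of a point of `C` -/
def D (φ : (ℕ → ℕ) → (ℕ → ℕ)) (T : ℕ → Set (List ℕ))
    (k : List (List ℕ) × List ℕ × List ℕ × List ℕ) (w : ℕ → ℕ) : Set (List ℕ × ℕ × ℕ) :=
  {q | ∃ n n' : List ℕ, EmbAt φ w k.2.2.1 w n ∧
    T q.2.1 = TP φ w (diag k.1 ++ [(q.2.2 :: k.2.1, n), (k.2.2.2, n')]) ∧ q.1 ∈ T q.2.1}

theorem D_eq (hφ : Continuous φ) (T : ℕ → Set (List ℕ)) (F : List (List ℕ)) (v nγ t : List ℕ)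
    {w : ℕ → ℕ} (hw : w ∉ range φ) :
    D φ T (F, v, nγ, t) w = G φ T (cnd φ F w) v (rkb φ w nγ) t := by
  have key : ∀ (a : ℕ) (n n' : List ℕ), TP φ w (diag F ++ [(a :: v, n), (t, n')]) =
      tr (pts φ (cnd φ F w ++ [(a :: v, rkb φ w n), (t, rkb φ w n')])) := by
    intro a n n'
    rw [TP_eq hφ hw (p := diag F ++ [(a :: v, n), (t, n')]) (n := [])
      (List.mem_append_left _ List.mem_cons_self), List.map_append]
    rfl
  ext ⟨s, i, a⟩
  constructor
  · rintro ⟨n, n', h1, h2, h3⟩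
    refine ⟨rkb φ w n, rkb φ w n', (embAt_iff hφ hw hw _ _).1 h1, ?_, h3⟩
    exact h2.trans (key a n n')
  · rintro ⟨o, o', h1, h2, h3⟩
    have h3' : s ∈ tr (pts φ (cnd φ F w ++ [(a :: v, o), (t, o')])) := by
      have h4 : s ∈ T i := h3
      rwa [show T i = _ from h2] at h4
    obtain ⟨x, hx, -⟩ := h3'
    rw [pts_append] at hx
    obtain ⟨hx1, hx2⟩ := hx
    have hroot : rkb φ x [] = rkb φ w [] := by
      refine hx1.2 ([], rkb φ w []) ?_
      exact List.mem_map.2 ⟨([], []), List.mem_cons_self, rfl⟩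
    have ho : rkb φ x (a :: v) = o := hx2 (a :: v, o) (by simp)
    have ho' : rkb φ x t = o' := hx2 (t, o') (by simp)
    have hle : o ≤ rkb φ w [] := by
      rw [← ho, ← hroot]
      exact rkb_le_root hφ hx1.1 _
    have hle' : o' ≤ rkb φ w [] := by
      rw [← ho', ← hroot]
      exact rkb_le_root hφ hx1.1 _
    obtain ⟨n, hn⟩ := exists_node hφ hw hle
    obtain ⟨n', hn'⟩ := exists_node hφ hw hle'
    refine ⟨n, n', (embAt_iff hφ hw hw _ _).2 (by rw [hn]; exact h1), ?_, h3⟩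
    show T i = TP φ w (diag F ++ [(a :: v, n), (t, n')])
    rw [key, hn, hn']
    exact h2

theorem measurable_D (T : ℕ → Set (List ℕ)) (k : List (List ℕ) × List ℕ × List ℕ × List ℕ)
    (j : List ℕ × ℕ × ℕ) : MeasurableSet[GA] {w | j ∈ D φ T k w} := by
  have h1 : {w | j ∈ D φ T k w} = ⋃ n : List ℕ, ⋃ n' : List ℕ,
      ({w | EmbAt φ w k.2.2.1 w n} ∩
        ((⋂ s : List ℕ, {w | s ∈ T j.2.1 ↔
          s ∈ TP φ w (diag k.1 ++ [(j.2.2 :: k.2.1, n), (k.2.2.2, n')])}) ∩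
        {_w | j.1 ∈ T j.2.1})) := by
    ext w
    simp only [mem_iUnion, mem_inter_iff, mem_iInter, mem_ofPred_eq]
    constructor
    · rintro ⟨n, n', a1, a2, a3⟩
      exact ⟨n, n', a1, fun s => by rw [← a2], a3⟩
    · rintro ⟨n, n', a1, a2, a3⟩
      exact ⟨n, n', a1, Set.ext a2, a3⟩
  rw [h1]
  refine @MeasurableSet.iUnion _ _ GA _ _ fun n => @MeasurableSet.iUnion _ _ GA _ _ fun n' => ?_
  refine @MeasurableSet.inter _ GA _ _ ?_ (@MeasurableSet.inter _ GA _ _ ?_ ?_)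
  · exact measurableSet_GA_of_analytic (analyticSet_embAt_self φ _ _)
  · refine @MeasurableSet.iInter _ _ GA _ _ fun s => ?_
    have hm := measurableSet_GA_of_analytic (analyticSet_TP φ
      (diag k.1 ++ [(j.2.2 :: k.2.1, n), (k.2.2.2, n')]) s)
    by_cases hs : s ∈ T j.2.1
    · have : {w | s ∈ T j.2.1 ↔
          s ∈ TP φ w (diag k.1 ++ [(j.2.2 :: k.2.1, n), (k.2.2.2, n')])} =
          {w | s ∈ TP φ w (diag k.1 ++ [(j.2.2 :: k.2.1, n), (k.2.2.2, n')])} := by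
        ext w
        simp [hs]
      rw [this]
      exact hm
    · have : {w | s ∈ T j.2.1 ↔
          s ∈ TP φ w (diag k.1 ++ [(j.2.2 :: k.2.1, n), (k.2.2.2, n')])} =
          {w | s ∈ TP φ w (diag k.1 ++ [(j.2.2 :: k.2.1, n), (k.2.2.2, n')])}ᶜ := by
        ext w
        simp [hs]
      rw [this]
      exact @MeasurableSet.compl _ _ GA hm
  · by_cases hs : j.1 ∈ T j.2.1
    · have : {_w : ℕ → ℕ | j.1 ∈ T j.2.1} = univ := by ext w; simp [hs]
      rw [this]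
      exact @MeasurableSet.univ _ GA
    · have : {_w : ℕ → ℕ | j.1 ∈ T j.2.1} = ∅ := by ext w; simp [hs]
      rw [this]
      exact @MeasurableSet.empty _ GA

end FamG

open FamG in
/-- (5) of the proof -/
theorem countable_G (hφ : Continuous φ) (hC : ¬ MeasurableSet (range φ)ᶜ) (hP : PSP)
    (T : ℕ → Set (List ℕ)) :
    {S | ∃ (σ : Cond) (v t : List ℕ) (β γ : WithBot Ordinal.{0}), ([], β) ∈ σ ∧ γ ≤ β ∧
      (pts φ σ).Nonempty ∧ S = G φ T σ v γ t}.Countable := by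
  have key := countable_family hφ hC hP (K := List (List ℕ) × List ℕ × List ℕ × List ℕ)
    (J := List ℕ × ℕ × ℕ) (D φ T) (fun k j => measurable_D T k j) (by
      intro x₀ hx₀
      have hcnt := countable_le hφ hx₀
      have h1 : ({σ : Cond | ∀ q ∈ σ, q.2 ≤ rkb φ x₀ []} ×ˢ
          ((univ : Set (List ℕ)) ×ˢ ({o : WithBot Ordinal.{0} | o ≤ rkb φ x₀ []} ×ˢ
            (univ : Set (List ℕ))))).Countable :=
        (countable_cond hcnt).prod ((countable_univ).prod (hcnt.prod countable_univ))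
      refine (h1.image fun z => G φ T z.1 z.2.1 z.2.2.1 z.2.2.2).mono ?_
      rintro S ⟨⟨F, v, nγ, t⟩, w, hw, hle, rfl⟩
      refine ⟨(cnd φ F w, v, rkb φ w nγ, t), ?_, (D_eq hφ T F v nγ t hw).symm⟩
      refine ⟨?_, mem_univ _, ?_, mem_univ _⟩
      · intro q hq
        rw [cnd, List.mem_map] at hq
        obtain ⟨r, -, rfl⟩ := hq
        exact (rkb_le_root hφ hw r.2).trans hle
      · exact (rkb_le_root hφ hw nγ).trans hle)
  refine key.mono ?_
  rintro S ⟨σ, v, t, β, γ, hβ, hγ, ⟨w, hw⟩, rfl⟩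
  have hroot : rkb φ w [] = β := hw.2 _ hβ
  obtain ⟨nγ, hn⟩ := exists_node hφ hw.1 (hγ.trans hroot.ge)
  refine ⟨(σ.map Prod.fst, v, nγ, t), w, hw.1, ?_⟩
  rw [D_eq hφ T _ v nγ t hw.1, hn]
  exact G_congr T (pts_diag hβ hw).symm v γ t

end HJ
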