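import Pool.Agent.HJ.Rank

/-!
# The trees of points with prescribed ranks, coded by a point of `C`
-/

open Set PiNat MeasureTheory MP73ea52

namespace HJ

variable {φ : (ℕ → ℕ) → (ℕ → ℕ)}

theorem analyticSet_TP (φ : (ℕ → ℕ) → (ℕ → ℕ)) (p : List (List ℕ × List ℕ)) (s : List ℕ) :
    AnalyticSet {w | s ∈ TP φ w p} := by
  have h1 : AnalyticSet {q : (ℕ → ℕ) × (ℕ → ℕ) | ∀ r ∈ p, EmbAt φ q.1 r.1 q.2 r.2 ∧
      EmbAt φ q.2 r.2 q.1 r.1} := by
    have heq : {q : (ℕ → ℕ) × (ℕ → ℕ) | ∀ r ∈ p, EmbAt φ q.1 r.1 q.2 r.2 ∧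
        EmbAt φ q.2 r.2 q.1 r.1} =
        ⋂ r : {r // r ∈ p}, ({q | EmbAt φ q.1 r.1.1 q.2 r.1.2} ∩
          {q | EmbAt φ q.2 r.1.2 q.1 r.1.1}) := by
      ext q
      simp only [mem_iInter, mem_inter_iff, Set.mem_ofPred_eq, Subtype.forall]
    rw [heq]
    rcases isEmpty_or_nonempty {r // r ∈ p} with he | hne
    · rw [iInter_of_empty]
      exact MeasurableSet.univ.analyticSet
    · have : Countable {r // r ∈ p} := inferInstance
      refine AnalyticSet.iInter fun r => AnalyticSet.inter' (analyticSet_embAt φ _ _) ?_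
      exact (analyticSet_embAt φ r.1.2 r.1.1).preimage
        (f := fun q : (ℕ → ℕ) × (ℕ → ℕ) => (q.2, q.1)) (continuous_snd.prodMk continuous_fst)
  have h2 : AnalyticSet {q : (ℕ → ℕ) × (ℕ → ℕ) | res q.1 s.length = s} :=
    ((isOpen_resEq s.length s).preimage continuous_fst).measurableSet.analyticSet
  have himg : {w | s ∈ TP φ w p} = Prod.snd '' ({q : (ℕ → ℕ) × (ℕ → ℕ) | ∀ r ∈ p,
      EmbAt φ q.1 r.1 q.2 r.2 ∧ EmbAt φ q.2 r.2 q.1 r.1} ∩ {q | res q.1 s.length = s}) := by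
    ext w
    constructor
    · rintro ⟨x, hx1, hx2⟩
      exact ⟨(x, w), ⟨hx1, hx2⟩, rfl⟩
    · rintro ⟨⟨x, w'⟩, ⟨hx1, hx2⟩, rfl⟩
      exact ⟨x, hx1, hx2⟩
  rw [himg]
  exact (AnalyticSet.inter' h1 h2).image_of_continuous continuous_snd

/-- for `w ∈ C` the tree `TP φ w p` is the tree of a condition -/
theorem TP_eq (hφ : Continuous φ) {w : ℕ → ℕ} (hw : w ∉ range φ) {p : List (List ℕ × List ℕ)}
    {n : List ℕ} (hp : ([], n) ∈ p) :
    TP φ w p = tr (pts φ (p.map fun q => (q.1, rkb φ w q.2))) := by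
  ext s
  constructor
  · rintro ⟨x, hx, hs⟩
    have hxC : x ∉ range φ := not_mem_of_embAt hφ hw (hx _ hp).1
    refine ⟨x, ⟨hxC, ?_⟩, hs⟩
    intro q hq
    obtain ⟨r, hr, rfl⟩ := List.mem_map.1 hq
    obtain ⟨h1, h2⟩ := hx r hr
    rw [embAt_iff hφ hxC hw] at h1
    rw [embAt_iff hφ hw hxC] at h2
    exact le_antisymm h1 h2
  · rintro ⟨x, ⟨hxC, hx⟩, hs⟩
    refine ⟨x, fun q hq => ?_, hs⟩
    have h := hx _ (List.mem_map_of_mem (f := fun q : List ℕ × List ℕ => (q.1, rkb φ w q.2)) hq)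
    have h' : rkb φ x q.1 = rkb φ w q.2 := h
    rw [embAt_iff hφ hxC hw, embAt_iff hφ hw hxC]
    exact ⟨h'.le, h'.ge⟩

theorem analyticSet_embAt_self (φ : (ℕ → ℕ) → (ℕ → ℕ)) (t n : List ℕ) :
    AnalyticSet {w : ℕ → ℕ | EmbAt φ w t w n} :=
  (analyticSet_embAt φ t n).preimage (f := fun w : ℕ → ℕ => (w, w))
    (continuous_id.prodMk continuous_id)

theorem measurableSet_GA_of_analytic {S : Set (ℕ → ℕ)} (h : AnalyticSet S) :
    MeasurableSet[GA] S :=
  MeasurableSpace.measurableSet_generateFrom h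

/-- finite lists of pairs with bounded ordinals are countably many -/
theorem countable_cond {b : WithBot Ordinal.{0}} (hb : {o : WithBot Ordinal.{0} | o ≤ b}.Countable) :
    {σ : Cond | ∀ q ∈ σ, q.2 ≤ b}.Countable := by
  have : Countable {o : WithBot Ordinal.{0} | o ≤ b} := hb.to_subtype
  refine (countable_range fun l : List (List ℕ × {o : WithBot Ordinal.{0} | o ≤ b}) =>
    l.map fun q => (q.1, (q.2 : WithBot Ordinal.{0}))).mono ?_
  intro σ hσ
  refine ⟨σ.attach.map fun q => (q.1.1, ⟨q.1.2, hσ q.1 q.2⟩), ?_⟩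
  simp only [List.map_map]
  have : (fun q : {q // q ∈ σ} => (q.1.1, q.1.2)) = Subtype.val := by
    funext q
    rfl
  show List.map (fun q : {q // q ∈ σ} => (q.1.1, q.1.2)) σ.attach = σ
  rw [this, List.attach_map_subtype_val]

end HJ
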