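import Pool.Agent.HJ.Count
import Pool.Agent.HJ.TPar

/-!
# The trees of conditions are countably many
-/

open Set PiNat MeasureTheory MP73ea52

namespace HJ

variable {φ : (ℕ → ℕ) → (ℕ → ℕ)}

/-- the pairs coding the condition satisfied by `w` at the nodes of `F` and at the root -/
def diag (F : List (List ℕ)) : List (List ℕ × List ℕ) := ([], []) :: F.map fun t => (t, t)

theorem pts_diag {w : ℕ → ℕ} {σ : Cond} {β : WithBot Ordinal.{0}} (hβ : ([], β) ∈ σ)
    (hw : w ∈ pts φ σ) :
    pts φ ((diag (σ.map Prod.fst)).map fun q => (q.1, rkb φ w q.2)) = pts φ σ := by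
  ext x
  refine and_congr_right fun _ => ?_
  constructor
  · intro h q hq
    rw [← hw.2 q hq]
    refine h (q.1, rkb φ w q.1) ?_
    rw [List.mem_map]
    refine ⟨(q.1, q.1), List.mem_cons_of_mem _ ?_, rfl⟩
    rw [List.mem_map]
    exact ⟨q.1, List.mem_map_of_mem hq, rfl⟩
  · intro h q hq
    rw [List.mem_map] at hq
    obtain ⟨r, hr, rfl⟩ := hq
    rcases List.mem_cons.1 hr with rfl | hr
    · exact (h _ hβ).trans (hw.2 _ hβ).symm
    · rw [List.mem_map] at hr
      obtain ⟨t, ht, rfl⟩ := hr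
      rw [List.mem_map] at ht
      obtain ⟨q', hq', rfl⟩ := ht
      exact (h _ hq').trans (hw.2 _ hq').symm

/-- (2) of the proof -/
theorem countable_R (hφ : Continuous φ) (hC : ¬ MeasurableSet (range φ)ᶜ) (hP : PSP) :
    {S | ∃ σ : Cond, (∃ β, ([], β) ∈ σ) ∧ S = tr (pts φ σ)}.Countable := by
  have key := countable_family hφ hC hP (K := List (List ℕ)) (J := List ℕ)
    (fun F w => TP φ w (diag F))
    (fun F s => measurableSet_GA_of_analytic (analyticSet_TP φ _ s)) (by
      intro x₀ hx₀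
      refine ((countable_cond (countable_le hφ hx₀)).image fun σ => tr (pts φ σ)).mono ?_
      rintro S ⟨F, w, hw, hle, rfl⟩
      refine ⟨(diag F).map fun q => (q.1, rkb φ w q.2), ?_, ?_⟩
      · intro q hq
        rw [List.mem_map] at hq
        obtain ⟨r, -, rfl⟩ := hq
        exact (rkb_le_root hφ hw r.2).trans hle
      · exact (TP_eq hφ hw (p := diag F) (n := []) List.mem_cons_self).symm)
  refine (key.insert ∅).mono ?_
  rintro S ⟨σ, ⟨β, hβ⟩, rfl⟩
  rcases (pts φ σ).eq_empty_or_nonempty with h | ⟨w, hw⟩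
  · left
    rw [h, tr]
    simp
  · right
    refine ⟨σ.map Prod.fst, w, hw.1, ?_⟩
    show _ = TP φ w (diag (σ.map Prod.fst))
    rw [TP_eq hφ hw.1 (p := diag (σ.map Prod.fst)) (n := []) List.mem_cons_self,
      pts_diag hβ hw]

end HJ
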