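import Mathlib

/-!
# A guessing sequence
-/

open Set

namespace HJ

/-- (6) of the proof: one sequence guesses countably many functions infinitely often on
countably many infinite sets, together with every extra value -/
theorem exists_guess {ι V : Type} [Countable ι] [Countable V] [Nonempty V] (M : ι → Set ℕ)
    (hM : ∀ i, (M i).Infinite) (h : ι → ℕ → V) :
    ∃ rho : ℕ → V × ℕ, ∀ i y m₀, ∃ m ≥ m₀, m ∈ M i ∧ rho m = (h i m, y) := by
  classical
  rcases isEmpty_or_nonempty ι with hι | hι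
  · exact ⟨fun _ => (Classical.arbitrary V, 0), fun i => (hι.false i).elim⟩
  obtain ⟨e, he⟩ := exists_surjective_nat (ι × ℕ × ℕ)
  have hnext : ∀ k n : ℕ, ∃ m ∈ M (e k).1, max n (e k).2.2 < m := fun k n =>
    (hM (e k).1).exists_gt (max n (e k).2.2)
  choose nx hnx1 hnx2 using hnext
  obtain ⟨μ, hμ0, hμs⟩ : ∃ μ : ℕ → ℕ, μ 0 = nx 0 0 ∧ ∀ k, μ (k + 1) = nx (k + 1) (μ k) :=
    ⟨fun k => Nat.rec (motive := fun _ => ℕ) (nx 0 0) (fun j n => nx (j + 1) n) k, rfl,
      fun _ => rfl⟩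
  have hμ : ∀ k, μ k ∈ M (e k).1 ∧ (e k).2.2 ≤ μ k := by
    intro k
    cases k with
    | zero =>
      refine ⟨hμ0 ▸ hnx1 0 0, ?_⟩
      have := hnx2 0 0
      rw [hμ0]
      exact ((le_max_right _ _).trans_lt this).le
    | succ k =>
      rw [hμs]
      exact ⟨hnx1 _ _, ((le_max_right _ _).trans_lt (hnx2 _ _)).le⟩
  have hmono : StrictMono μ := by
    refine strictMono_nat_of_lt_succ fun k => ?_
    rw [hμs]
    exact (le_max_left _ _).trans_lt (hnx2 _ _)
  let rho : ℕ → V × ℕ := fun m : ℕ => if hm : ∃ k : ℕ, μ k = m then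
    (h (e hm.choose).1 m, (e hm.choose).2.1) else (Classical.arbitrary V, 0)
  refine ⟨rho, ?_⟩
  intro i y m₀
  obtain ⟨k, hk⟩ := he (i, y, m₀)
  refine ⟨μ k, ?_, ?_, ?_⟩
  · have := (hμ k).2
    rw [hk] at this
    exact this
  · have := (hμ k).1
    rw [hk] at this
    exact this
  · have hex : ∃ j, μ j = μ k := ⟨k, rfl⟩
    have hc : hex.choose = k := hmono.injective hex.choose_spec
    simp only [rho, dif_pos hex, hc, hk]

end HJ
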