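import Pool.Agent.HJ.FamR
import Pool.Agent.HJ.FamG
import Pool.Agent.HJ.Dense
import Pool.Agent.HJ.Guess

/-!
# The parameters of the decoder exist
-/

open Set PiNat MeasureTheory MP73ea52

namespace HJ

variable {φ : (ℕ → ℕ) → (ℕ → ℕ)}

/-- the levels at which some node of a refinement leaves `e` -/
private def Lv (e : ℕ → ℕ) (S : Set (List ℕ × ℕ × ℕ)) : Set ℕ :=
  {m | ∃ p : ℕ × ℕ, ∃ c, c ≠ e m ∧ (c :: res e m, p.1, p.2) ∈ S}

theorem exists_code (hφ : Continuous φ) (hC : ¬ MeasurableSet (range φ)ᶜ) (hP : PSP) :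
    Nonempty (Code φ) := by
  classical
  have hR := countable_R hφ hC hP
  set R : Set (Set (List ℕ)) := {S | ∃ σ : Cond, (∃ β, ([], β) ∈ σ) ∧ S = tr (pts φ σ)} with hRdef
  have hRne : R.Nonempty := ⟨tr (pts φ [([], ⊥)]), [([], ⊥)], ⟨⊥, by simp⟩, rfl⟩
  obtain ⟨T, hT⟩ := hR.exists_eq_range hRne
  have hTR : ∀ σ : Cond, (∃ β, ([], β) ∈ σ) → ∃ i, T i = tr (pts φ σ) := by
    intro σ hσ
    have h1 : tr (pts φ σ) ∈ R := ⟨σ, hσ, rfl⟩
    rw [hT] at h1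
    exact h1
  obtain ⟨x₀, hx₀, E, hEφ, hEc, hdense⟩ := exists_dense hφ hC hR
  obtain ⟨S₀, hS₀⟩ := exists_start hφ hC hR
  have hGc := countable_G hφ hC hP T
  set GG : Set (Set (List ℕ × ℕ × ℕ)) :=
    {S | ∃ (σ : Cond) (v t : List ℕ) (β γ : WithBot Ordinal.{0}), ([], β) ∈ σ ∧ γ ≤ β ∧
      (pts φ σ).Nonempty ∧ S = G φ T σ v γ t} with hGG
  -- the guessed points
  let eps : ℕ → List ℕ → (ℕ → ℕ) := fun i s =>
    if h : ∃ e ∈ E, e ∈ body (T i) ∧ res e s.length = s then h.choose else φ 0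
  have heps : ∀ i s, (∃ e ∈ E, e ∈ body (T i) ∧ res e s.length = s) →
      eps i s ∈ E ∧ eps i s ∈ body (T i) ∧ res (eps i s) s.length = s := by
    intro i s h
    have h1 : eps i s = h.choose := by
      simp only [eps, dif_pos h]
    rw [h1]
    exact h.choose_spec
  have heps_mem : ∀ i s, eps i s ∈ range φ := by
    intro i s
    by_cases h : ∃ e ∈ E, e ∈ body (T i) ∧ res e s.length = s
    · exact hEφ (heps i s h).1
    · have h1 : eps i s = φ 0 := by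
        simp only [eps, dif_neg h]
      rw [h1]
      exact ⟨0, rfl⟩
  -- the tasks
  let ι : Type := {q : E × GG // (Lv q.1.1 q.2.1).Infinite}
  have hEct : Countable E := hEc.to_subtype
  have hGct : Countable GG := hGc.to_subtype
  have hιc : Countable ι := inferInstance
  let hh : ι → ℕ → ℕ × ℕ := fun q m => if h : m ∈ Lv q.1.1.1 q.1.2.1 then h.choose else (0, 0)
  have hhh : ∀ (q : ι) (m : ℕ), m ∈ Lv q.1.1.1 q.1.2.1 →
      ∃ c, c ≠ q.1.1.1 m ∧ (c :: res q.1.1.1 m, (hh q m).1, (hh q m).2) ∈ q.1.2.1 := by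
    intro q m h
    have h1 : hh q m = h.choose := by
      simp only [hh, dif_pos h]
    rw [h1]
    exact h.choose_spec
  obtain ⟨rho, hrho⟩ := exists_guess (ι := ι) (V := ℕ × ℕ) (fun q => Lv q.1.1.1 q.1.2.1)
    (fun q => q.2) hh
  -- the start
  obtain ⟨w₀, _, _, hw₀⟩ := hS₀ x₀ hx₀
  obtain ⟨i0, hi0⟩ := hTR [([], rkb φ w₀ [])] ⟨_, List.mem_singleton.2 rfl⟩
  refine ⟨{ T := T, eps := eps, rho := rho, i0 := i0, b0 := rkb φ x₀ [],
            eps_mem := heps_mem, start := ?_, step := ?_ }⟩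
  · intro x hx
    rcases le_total (rkb φ x []) (rkb φ x₀ []) with h | h
    · obtain ⟨w, hw1, hw2, hw3⟩ := hS₀ x₀ hx₀
      exact ⟨w, hw1, h.trans hw2, hw2, by rw [hi0, ← hw₀, hw3]⟩
    · obtain ⟨w, hw1, hw2, hw3⟩ := hS₀ x hx
      exact ⟨w, hw1, hw2, h.trans hw2, by rw [hi0, ← hw₀, hw3]⟩
  · intro σ β i s v t γ o y hβσ hbβ hTi hs hvσ hγo
    have hs' : s ∈ tr (pts φ σ) := hTi ▸ hs
    obtain ⟨x₁, hx₁, _⟩ := hs'
    have hex : ∃ e ∈ E, e ∈ body (T i) ∧ res e s.length = s := by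
      rw [hTi]
      exact hdense σ β hβσ hbβ s (hTi ▸ hs)
    obtain ⟨he1, he2, he3⟩ := heps i s hex
    refine ⟨he3, ?_⟩
    have hγβ : γ ≤ β := by
      have h1 : rkb φ x₁ v = o := hx₁.2 _ hvσ
      have h2 : rkb φ x₁ [] = β := hx₁.2 _ hβσ
      rw [← h2]
      exact hγo.le.trans (h1 ▸ rkb_le_root hφ hx₁.1 v)
    set G' := G φ T σ v γ t with hG'
    have hG'mem : G' ∈ GG := ⟨σ, v, t, β, γ, hβσ, hγβ, ⟨x₁, hx₁⟩, rfl⟩
    have hinf : (Lv (eps i s) G').Infinite := by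
      rw [Set.infinite_iff_exists_gt]
      intro m₀
      rw [hTi] at he2
      obtain ⟨m, hm, c, hc, hcm⟩ := exists_leave (hEφ he1) he2 (m₀ + 1)
      refine ⟨m, ?_, by omega⟩
      obtain ⟨x, hx, hxm⟩ := hcm
      have hxv : γ < rkb φ x v := by
        rw [hx.2 _ hvσ]
        exact hγo
      obtain ⟨a, ha⟩ := exists_cons hφ hx.1 hxv
      have hx' : x ∈ pts φ (σ ++ [(a :: v, rkb φ x (a :: v)), (t, rkb φ x t)]) := by
        refine ⟨hx.1, ?_⟩
        intro q hq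
        rw [List.mem_append] at hq
        rcases hq with hq | hq
        · exact hx.2 q hq
        · simp only [List.mem_cons, List.not_mem_nil, or_false] at hq
          rcases hq with rfl | rfl <;> rfl
      obtain ⟨i', hi'⟩ := hTR (σ ++ [(a :: v, rkb φ x (a :: v)), (t, rkb φ x t)])
        ⟨β, List.mem_append_left _ hβσ⟩
      refine ⟨(i', a), c, hc, ?_⟩
      refine ⟨rkb φ x (a :: v), rkb φ x t, ha, hi', ?_⟩
      show c :: res (eps i s) m ∈ T i'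
      rw [hi']
      exact ⟨x, hx', hxm⟩
    obtain ⟨m, hm1, hm2, hm3⟩ := hrho ⟨(⟨eps i s, he1⟩, ⟨G', hG'mem⟩), hinf⟩ y s.length
    obtain ⟨c, hc1, hc2⟩ := hhh ⟨(⟨eps i s, he1⟩, ⟨G', hG'mem⟩), hinf⟩ m hm2
    obtain ⟨o₁, o₂, ho1, ho2, ho3⟩ := hc2
    exact ⟨m, hm1, c, hc1, _, _, o₁, o₂, ho1, ho2, ho3, hm3⟩

end HJ
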