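import Pool.Agent.HJ.Defs

/-!
# Ranks of nodes and embeddings
-/

open Set PiNat MeasureTheory MP73ea52

namespace HJ

variable {φ : (ℕ → ℕ) → (ℕ → ℕ)}

/-- membership of `t` in the tree of `x` depends only on the first `t.length` values of `x` -/
theorem mem_treeOf_congr {x x' : ℕ → ℕ} {n : ℕ} (h : res x n = res x' n) {t : List ℕ}
    (ht : t.length ≤ n) : t ∈ treeOf φ x ↔ t ∈ treeOf φ x' := by
  have h' : res x t.length = res x' t.length :=
    res_eq_res.2 fun m hm => res_eq_res.1 h (lt_of_lt_of_le hm ht)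
  constructor
  · rintro ⟨z, h1, h2⟩
    exact ⟨z, h1, h2.trans h'⟩
  · rintro ⟨z, h1, h2⟩
    exact ⟨z, h1, h2.trans h'.symm⟩

private theorem wfx (hφ : Continuous φ) {x : ℕ → ℕ} (hx : x ∉ range φ) :
    WellFounded (Child (treeOf φ x)) := (wf_treeOf_iff φ hφ x).2 hx

private theorem rkb_of_mem (hφ : Continuous φ) {x : ℕ → ℕ} (hx : x ∉ range φ) {t : List ℕ}
    (ht : t ∈ treeOf φ x) :
    rkb φ x t = ((rk (wfx hφ hx) t : Ordinal.{0}) : WithBot Ordinal.{0}) := by
  rw [rkb, dif_pos ⟨wfx hφ hx, ht⟩]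

theorem rkb_eq_bot (hφ : Continuous φ) {x : ℕ → ℕ} (hx : x ∉ range φ) {t : List ℕ} :
    rkb φ x t = ⊥ ↔ t ∉ treeOf φ x := by
  constructor
  · intro h ht
    rw [rkb_of_mem hφ hx ht] at h
    exact WithBot.coe_ne_bot h
  · intro ht
    rw [rkb, dif_neg fun h => ht h.2]

private theorem mem_of_append {x : ℕ → ℕ} (u t : List ℕ) (h : u ++ t ∈ treeOf φ x) :
    t ∈ treeOf φ x := by
  induction u with
  | nil => exact h
  | cons a u ih => exact ih (treeOf_tail φ x a (u ++ t) h)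

private theorem above_tail (x : ℕ → ℕ) (t : List ℕ) (a : ℕ) (s : List ℕ)
    (h : a :: s ∈ above φ x t) : s ∈ above φ x t :=
  treeOf_tail φ x a (s ++ t) h

private theorem lab_head (s : List ℕ) : lab (fun s => s.headD 0) s = s := by
  induction s with
  | nil => rfl
  | cons a s ih => rw [lab, ih]; rfl

private theorem emb_above (x : ℕ → ℕ) (t : List ℕ) : Emb (above φ x t) (treeOf φ x) t :=
  ⟨fun s => s.headD 0, fun s hs => by rw [lab_head]; exact hs⟩

private theorem wf_above (hφ : Continuous φ) {x : ℕ → ℕ} (hx : x ∉ range φ) (t : List ℕ) :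
    WellFounded (Child (above φ x t)) := wf_of_emb (emb_above x t) (wfx hφ hx)

private theorem rk_above (hφ : Continuous φ) {x : ℕ → ℕ} (hx : x ∉ range φ) (t : List ℕ) :
    rk (wf_above hφ hx t) [] = rk (wfx hφ hx) t := by
  refine le_antisymm (rk_le_of_emb (emb_above x t) _ _) ?_
  have key : ∀ u, rk (wfx hφ hx) (u ++ t) ≤ rk (wf_above hφ hx t) u := by
    intro u
    induction u using (wf_above hφ hx t).induction with
    | _ u ih =>
      refine rk_le _ fun s hs => ?_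
      obtain ⟨a, rfl, ha⟩ := hs
      have hc : Child (above φ x t) (a :: u) u := ⟨a, rfl, ha⟩
      exact lt_of_le_of_lt (ih _ hc) (rk_lt _ hc)
  exact key []

private theorem emb_iff {ψ : (ℕ → ℕ) → (ℕ → ℕ)} (hφ : Continuous φ) (hψ : Continuous ψ)
    {x w : ℕ → ℕ} (hx : x ∉ range φ) (hw : w ∉ range ψ) (t n : List ℕ) :
    Emb (above φ x t) (treeOf ψ w) n ↔ rkb φ x t ≤ rkb ψ w n := by
  by_cases ht : t ∈ treeOf φ x
  · constructor
    · intro h
      have hn : n ∈ treeOf ψ w := by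
        obtain ⟨b, hb⟩ := h
        exact hb [] ht
      rw [rkb_of_mem hφ hx ht, rkb_of_mem hψ hw hn, WithBot.coe_le_coe, ← rk_above hφ hx t]
      exact rk_le_of_emb h _ _
    · intro h
      have hn : n ∈ treeOf ψ w := by
        by_contra hn
        rw [(rkb_eq_bot hψ hw).2 hn, rkb_of_mem hφ hx ht, le_bot_iff] at h
        exact WithBot.coe_ne_bot h
      rw [rkb_of_mem hφ hx ht, rkb_of_mem hψ hw hn, WithBot.coe_le_coe, ← rk_above hφ hx t] at h
      exact emb_of_rk_le (above_tail x t) _ _ hn h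
  · constructor
    · intro _
      rw [(rkb_eq_bot hφ hx).2 ht]
      exact bot_le
    · intro _
      exact ⟨fun _ => 0, fun s hs => absurd (mem_of_append s t hs) ht⟩

/-- (R1) comparison of ranks is the existence of an embedding -/
theorem embAt_iff (hφ : Continuous φ) {x w : ℕ → ℕ} (hx : x ∉ range φ) (hw : w ∉ range φ)
    (t n : List ℕ) : EmbAt φ x t w n ↔ rkb φ x t ≤ rkb φ w n :=
  emb_iff hφ hφ hx hw t n

private theorem above_nil (x : ℕ → ℕ) : above φ x [] = treeOf φ x := by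
  ext u
  rw [above, Set.mem_ofPred_eq, List.append_nil]

/-- (R1) a tree which embeds in a well-founded tree is well-founded -/
theorem not_mem_of_embAt (hφ : Continuous φ) {x w : ℕ → ℕ} (hw : w ∉ range φ) {n : List ℕ}
    (h : EmbAt φ x [] w n) : x ∉ range φ := by
  rw [EmbAt, above_nil] at h
  exact (wf_treeOf_iff φ hφ x).1 (wf_of_emb h (wfx hφ hw))

theorem rkb_cons_lt (hφ : Continuous φ) {x : ℕ → ℕ} (hx : x ∉ range φ) {a : ℕ} {t : List ℕ}
    (h : t ∈ treeOf φ x) : rkb φ x (a :: t) < rkb φ x t := by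
  rw [rkb_of_mem hφ hx h]
  by_cases ha : a :: t ∈ treeOf φ x
  · rw [rkb_of_mem hφ hx ha, WithBot.coe_lt_coe]
    exact rk_lt _ ⟨a, rfl, ha⟩
  · rw [(rkb_eq_bot hφ hx).2 ha]
    exact WithBot.bot_lt_coe _

/-- (R3) -/
theorem exists_cons (hφ : Continuous φ) {x : ℕ → ℕ} (hx : x ∉ range φ) {t : List ℕ}
    {γ : WithBot Ordinal.{0}} (h : γ < rkb φ x t) : ∃ a, γ ≤ rkb φ x (a :: t) := by
  have ht : t ∈ treeOf φ x := by
    by_contra ht
    rw [(rkb_eq_bot hφ hx).2 ht] at h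
    exact not_lt_bot h
  rcases γ with _ | o
  · exact ⟨0, bot_le⟩
  · rw [rkb_of_mem hφ hx ht] at h
    have h' : o < rk (wfx hφ hx) t := WithBot.coe_lt_coe.1 h
    obtain ⟨t', ⟨a, rfl, ha⟩, hle⟩ := lt_rk _ h'
    refine ⟨a, ?_⟩
    rw [rkb_of_mem hφ hx ha]
    exact WithBot.coe_le_coe.2 hle

theorem rkb_le_root (hφ : Continuous φ) {x : ℕ → ℕ} (hx : x ∉ range φ) (t : List ℕ) :
    rkb φ x t ≤ rkb φ x [] := by
  induction t with
  | nil => exact le_rfl
  | cons a t ih =>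
    refine le_trans ?_ ih
    by_cases ht : t ∈ treeOf φ x
    · exact (rkb_cons_lt hφ hx ht).le
    · rw [(rkb_eq_bot hφ hx).2 fun ha => ht (treeOf_tail φ x a t ha)]
      exact bot_le

/-- (R2) every value up to the rank of the root is the rank of a node -/
theorem exists_node (hφ : Continuous φ) {w : ℕ → ℕ} (hw : w ∉ range φ)
    {o : WithBot Ordinal.{0}} (ho : o ≤ rkb φ w []) : ∃ n, rkb φ w n = o := by
  rcases o with _ | o
  · by_contra hc
    push Not at hc
    have hall : ∀ n, n ∈ treeOf φ w := by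
      intro n
      by_contra hn
      exact hc n ((rkb_eq_bot hφ hw).2 hn)
    obtain ⟨t, -, ht⟩ := (wfx hφ hw).has_min univ ⟨[], mem_univ _⟩
    exact ht (0 :: t) (mem_univ _) ⟨0, rfl, hall _⟩
  · have h0 := nil_mem_treeOf φ w
    rw [rkb_of_mem hφ hw h0] at ho
    have ho' : o ≤ rk (wfx hφ hw) [] := WithBot.coe_le_coe.1 ho
    obtain ⟨t, ⟨ht, hle⟩, hmin⟩ := (wfx hφ hw).has_min {t | t ∈ treeOf φ w ∧
      o ≤ rk (wfx hφ hw) t} ⟨[], h0, ho'⟩
    refine ⟨t, ?_⟩
    rw [rkb_of_mem hφ hw ht]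
    have : rk (wfx hφ hw) t = o := by
      by_contra hne
      obtain ⟨t', hc, hle'⟩ := lt_rk (wfx hφ hw) (lt_of_le_of_ne hle (Ne.symm hne))
      have ht' : t' ∈ treeOf φ w := by
        obtain ⟨a, rfl, ha⟩ := hc
        exact ha
      exact hmin t' ⟨ht', hle'⟩ hc
    rw [this]
    rfl

theorem countable_le (hφ : Continuous φ) {w : ℕ → ℕ} (hw : w ∉ range φ) :
    {o : WithBot Ordinal.{0} | o ≤ rkb φ w []}.Countable := by
  refine (countable_range (rkb φ w)).mono fun o ho => ?_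
  obtain ⟨n, hn⟩ := exists_node hφ hw ho
  exact ⟨n, hn⟩

private theorem analytic_emb2 (φ ψ : (ℕ → ℕ) → (ℕ → ℕ)) (t n : List ℕ) :
    AnalyticSet {p : (ℕ → ℕ) × (ℕ → ℕ) | Emb (above φ p.1 t) (treeOf ψ p.2) n} := by
  have hm : MeasurableSet {q : ((ℕ → ℕ) × (ℕ → ℕ)) × (List ℕ → ℕ) |
      ∀ s, s ∈ above φ q.1.1 t → lab q.2 s ++ n ∈ treeOf ψ q.1.2} := by
    have : {q : ((ℕ → ℕ) × (ℕ → ℕ)) × (List ℕ → ℕ) |
        ∀ s, s ∈ above φ q.1.1 t → lab q.2 s ++ n ∈ treeOf ψ q.1.2} =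
        ⋂ s, ({q : ((ℕ → ℕ) × (ℕ → ℕ)) × (List ℕ → ℕ) | s ++ t ∈ treeOf φ q.1.1}ᶜ ∪
          ⋃ u : List ℕ, ({q | lab q.2 s = u} ∩ {q | u ++ n ∈ treeOf ψ q.1.2})) := by
      ext q
      simp only [mem_iInter, mem_union, mem_compl_iff, mem_iUnion, mem_inter_iff,
        Set.mem_ofPred_eq]
      refine forall_congr' fun s => ?_
      constructor
      · intro h
        by_cases hs : s ++ t ∈ treeOf φ q.1.1
        · exact _root_.Or.inr ⟨_, rfl, h hs⟩
        · exact _root_.Or.inl hs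
      · rintro (h | ⟨u, hu, h⟩) hs
        · exact absurd hs h
        · rw [hu]; exact h
    rw [this]
    refine MeasurableSet.iInter fun s => MeasurableSet.union ?_ (MeasurableSet.iUnion fun u =>
      MeasurableSet.inter ?_ ?_)
    · exact (((isOpen_treeOf φ (s ++ t)).preimage
        (continuous_fst.comp continuous_fst)).measurableSet).compl
    · exact ((isOpen_lab s u).preimage continuous_snd).measurableSet
    · exact ((isOpen_treeOf ψ (u ++ n)).preimage
        (continuous_snd.comp continuous_fst)).measurableSet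
  have himg : {p : (ℕ → ℕ) × (ℕ → ℕ) | Emb (above φ p.1 t) (treeOf ψ p.2) n} =
      Prod.fst '' {q : ((ℕ → ℕ) × (ℕ → ℕ)) × (List ℕ → ℕ) |
      ∀ s, s ∈ above φ q.1.1 t → lab q.2 s ++ n ∈ treeOf ψ q.1.2} := by
    ext p
    constructor
    · rintro ⟨b, hb⟩
      exact ⟨(p, b), hb, rfl⟩
    · rintro ⟨⟨p', b⟩, hb, rfl⟩
      exact ⟨b, hb⟩
  rw [himg]
  exact (hm.analyticSet).image_of_continuous continuous_fst

theorem analyticSet_embAt (φ : (ℕ → ℕ) → (ℕ → ℕ)) (t n : List ℕ) :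
    AnalyticSet {p : (ℕ → ℕ) × (ℕ → ℕ) | EmbAt φ p.1 t p.2 n} :=
  analytic_emb2 φ φ t n

/-- (R4) boundedness: an analytic subset of `C` has bounded ranks -/
theorem exists_bound (hφ : Continuous φ) (hC : ¬ MeasurableSet (range φ)ᶜ) {A : Set (ℕ → ℕ)}
    (hA : AnalyticSet A) (hAC : ∀ a ∈ A, a ∉ range φ) :
    ∃ x₀ ∉ range φ, ∀ a ∈ A, rkb φ a [] < rkb φ x₀ [] := by
  by_contra hcon
  push Not at hcon
  apply hC
  refine AnalyticSet.measurableSet_of_compl ?_ ?_
  · have heq : (range φ)ᶜ = Prod.fst ''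
        ({p : (ℕ → ℕ) × (ℕ → ℕ) | EmbAt φ p.1 [] p.2 []} ∩ Prod.snd ⁻¹' A) := by
      ext x
      constructor
      · intro hx
        obtain ⟨a, ha, hle⟩ := hcon x hx
        exact ⟨(x, a), ⟨(embAt_iff hφ hx (hAC a ha) [] []).2 hle, ha⟩, rfl⟩
      · rintro ⟨⟨x', a⟩, ⟨h1, h2⟩, rfl⟩
        exact not_mem_of_embAt hφ (hAC a h2) h1
    rw [heq]
    exact (AnalyticSet.inter' (analyticSet_embAt φ [] []) (hA.preimage continuous_snd)).image_of_continuous
      continuous_fst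
  · rw [compl_compl]
    exact analyticSet_range_of_polishSpace hφ

/-- (R4) the ranks of `C` are above every rank of a coanalytic set -/
theorem exists_above (hφ : Continuous φ) (hC : ¬ MeasurableSet (range φ)ᶜ)
    {ψ : (ℕ → ℕ) → (ℕ → ℕ)} (hψ : Continuous ψ) {y : ℕ → ℕ} (hy : y ∉ range ψ) :
    ∃ x ∉ range φ, rkb ψ y [] ≤ rkb φ x [] := by
  by_contra hcon
  push Not at hcon
  apply hC
  refine AnalyticSet.measurableSet_of_compl ?_ ?_
  · have heq : (range φ)ᶜ = (fun x : ℕ → ℕ => (x, y)) ⁻¹'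
        {p : (ℕ → ℕ) × (ℕ → ℕ) | Emb (above φ p.1 []) (treeOf ψ p.2) []} := by
      ext x
      constructor
      · intro hx
        exact (emb_iff hφ hψ hx hy [] []).2 (hcon x hx).le
      · intro h
        have h' : Emb (above φ x []) (treeOf ψ y) [] := h
        rw [above_nil] at h'
        exact (wf_treeOf_iff φ hφ x).1 (wf_of_emb h' (wfx hψ hy))
    rw [heq]
    refine (analytic_emb2 φ ψ [] []).preimage ?_
    fun_prop
  · rw [compl_compl]
    exact analyticSet_range_of_polishSpace hφ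

end HJ
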