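import Pool.Agent.HJ.Defs

/-!
# From a partial map to a total one
-/

open Set PiNat MeasureTheory MP73ea52

namespace HJ

private theorem ret_agree {x y : ℕ → ℕ} {n m : ℕ} (h : m ≤ n) (hr : res x n = res y n) :
    res x m = res y m := by
  rw [res_eq_res] at hr ⊢
  intro k hk
  exact hr (lt_of_lt_of_le hk h)

private theorem ret_near {X : Type} [TopologicalSpace X] {y : X → (ℕ → ℕ)} (hy : Continuous y)
    (n : ℕ) (x : X) : ∀ᶠ x' in nhds x, res (y x') n = res (y x) n := by
  have h1 : IsOpen (cylinder (y x) n) := isOpen_cylinder (fun _ => ℕ) (y x) n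
  have h2 : ∀ᶠ x' in nhds x, y x' ∈ cylinder (y x) n :=
    hy.continuousAt.preimage_mem_nhds (h1.mem_nhds (self_mem_cylinder _ _))
  filter_upwards [h2] with x' hx'
  rw [cylinder_eq_res] at hx'
  exact hx'

/-- a continuous map which takes values in `P` where infinitely many clopen checks are passed can be
changed elsewhere so that all values are in `P` -/
theorem exists_total {X : Type} [TopologicalSpace X] {P : Set (ℕ → ℕ)} (hP : P.Nonempty)
    {y : X → (ℕ → ℕ)} (hy : Continuous y) (K : ℕ → Set X) (hK : ∀ n, IsClopen (K n))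
    (hKP : ∀ n, ∀ x ∈ K n, ∃ p ∈ P, res p (n + 1) = res (y x) (n + 1))
    (hin : ∀ x, (∀ n, x ∈ K n) → y x ∈ P) :
    ∃ F : X → (ℕ → ℕ), Continuous F ∧ (∀ x, F x ∈ P) ∧ ∀ x, (∀ n, x ∈ K n) → F x = y x := by
  classical
  have hq : ∀ s : List ℕ, ∃ p ∈ P, (∃ p' ∈ P, res p' s.length = s) → res p s.length = s := by
    intro s
    by_cases h : ∃ p' ∈ P, res p' s.length = s
    · obtain ⟨p', hp', hs⟩ := h
      exact ⟨p', hp', fun _ => hs⟩
    · obtain ⟨p, hp⟩ := hP
      exact ⟨p, hp, fun h' => absurd h' h⟩
  choose q hqP hqs using hq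
  let F : X → (ℕ → ℕ) := fun x =>
    if h : ∃ n, x ∉ K n then q (res (y x) (Nat.find h)) else y x
  have hall : ∀ x, (∀ n, x ∈ K n) → F x = y x := by
    intro x hx
    have h : ¬ ∃ n, x ∉ K n := by
      rintro ⟨n, hn⟩
      exact hn (hx n)
    simp only [F, dif_neg h]
  have hfail : ∀ x n, x ∉ K n → (∀ k < n, x ∈ K k) → F x = q (res (y x) n) := by
    intro x n hn hk
    have h : ∃ n, x ∉ K n := ⟨n, hn⟩
    have h1 : Nat.find h = n := by
      rw [Nat.find_eq_iff]
      exact ⟨hn, fun k hkn h2 => h2 (hk k hkn)⟩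
    simp only [F, dif_pos h, h1]
  have hFres : ∀ x n, x ∉ K n → (∀ k < n, x ∈ K k) → res (F x) n = res (y x) n := by
    intro x n hn hk
    rw [hfail x n hn hk]
    cases n with
    | zero => simp
    | succ n =>
      obtain ⟨p, hp, hp'⟩ := hKP n x (hk n (Nat.lt_succ_self n))
      have := hqs (res (y x) (n + 1)) ⟨p, hp, by rw [res_length]; exact hp'⟩
      rwa [res_length] at this
  have hFn : ∀ x n, (∀ k < n, x ∈ K k) → res (F x) n = res (y x) n := by
    intro x n hk
    by_cases h : ∀ m, x ∈ K m
    · rw [hall x h]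
    · push Not at h
      have h1 := Nat.find_spec h
      have h2 : ∀ k < Nat.find h, x ∈ K k := fun k hk' => by
        by_contra h3
        exact Nat.find_min h hk' h3
      have h4 : n ≤ Nat.find h := by
        by_contra h5
        push Not at h5
        exact h1 (hk _ h5)
      exact ret_agree h4 (hFres x _ h1 h2)
  refine ⟨F, ?_, ?_, hall⟩
  · rw [continuous_iff_continuousAt]
    intro x
    by_cases h : ∀ m, x ∈ K m
    · -- limit at a point without failure
      rw [ContinuousAt, tendsto_pi_nhds]
      intro n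
      refine tendsto_nhds_of_eventually_eq ?_
      have h1 : ∀ᶠ x' in nhds x, ∀ k ∈ Finset.range (n + 1), x' ∈ K k := by
        rw [Filter.eventually_all_finset]
        intro k _
        exact (hK k).isOpen.mem_nhds (h k)
      filter_upwards [h1, ret_near hy (n + 1) x] with x' hx1 hx2
      have h3 := hFn x' (n + 1) (fun k hk => hx1 k (Finset.mem_range.2 hk))
      rw [hx2, ← hFn x (n + 1) (fun k _ => h k), res_eq_res] at h3
      exact h3 (Nat.lt_succ_self n)
    · push Not at h
      have h1 := Nat.find_spec h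
      have h2 : ∀ k < Nat.find h, x ∈ K k := fun k hk' => by
        by_contra h3
        exact Nat.find_min h hk' h3
      set N := Nat.find h with hN
      have h3 : ∀ᶠ x' in nhds x, ∀ k ∈ Finset.range N, x' ∈ K k := by
        rw [Filter.eventually_all_finset]
        intro k hk
        exact (hK k).isOpen.mem_nhds (h2 k (Finset.mem_range.1 hk))
      have h4 : ∀ᶠ x' in nhds x, x' ∉ K N := (hK N).compl.isOpen.mem_nhds h1
      have h5 : ∀ᶠ x' in nhds x, F x' = F x := by
        filter_upwards [h3, h4, ret_near hy N x] with x' hx1 hx2 hx3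
        rw [hfail x' N hx2 (fun k hk => hx1 k (Finset.mem_range.2 hk)), hfail x N h1 h2, hx3]
      exact tendsto_nhds_of_eventually_eq h5
  · intro x
    by_cases h : ∃ n, x ∉ K n
    · simp only [F, dif_pos h]
      exact hqP _
    · push Not at h
      rw [hall x h]
      exact hin x h

end HJ
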