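import Pool.Agent.HJ.Params
import Pool.Agent.HJ.Coder
import Pool.Agent.HJ.Retract

/-!
# Every nonempty projection of a coanalytic set is a continuous image of `C`
-/

open Set PiNat MeasureTheory MP73ea52

namespace HJ

variable {φ ψ : (ℕ → ℕ) → (ℕ → ℕ)}

namespace SurjAux

theorem continuous_res {X : Type} [TopologicalSpace X] {y : X → (ℕ → ℕ)} (hy : Continuous y)
    (n : ℕ) : @Continuous X (List ℕ) _ ⊥ (fun x => res (y x) n) := by
  let _ : TopologicalSpace (List ℕ) := ⊥
  have _ : DiscreteTopology (List ℕ) := ⟨rfl⟩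
  induction n with
  | zero =>
    simp only [res_zero]
    exact continuous_const
  | succ n ih =>
    simp only [res_succ]
    have h1 : Continuous (fun x => (y x n, res (y x) n)) :=
      ((continuous_apply n).comp hy).prodMk ih
    exact (continuous_of_discreteTopology (f := fun q : ℕ × List ℕ => q.1 :: q.2)).comp h1

theorem continuous_lab {X : Type} [TopologicalSpace X] (a : X → ℕ → ℕ)
    (ha : ∀ k, Continuous (fun x => a x k)) (u : List ℕ) :
    @Continuous X (List ℕ) _ ⊥ (fun x => lab (fun u => a x (Encodable.encode u)) u) := by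
  let _ : TopologicalSpace (List ℕ) := ⊥
  have _ : DiscreteTopology (List ℕ) := ⟨rfl⟩
  induction u with
  | nil =>
    simp only [lab]
    exact continuous_const
  | cons b u ih =>
    simp only [lab]
    exact (continuous_of_discreteTopology (f := fun q : ℕ × List ℕ => q.1 :: q.2)).comp
      ((ha _).prodMk ih)

theorem length_lab (b : List ℕ → ℕ) (u : List ℕ) : (lab b u).length = u.length := by
  induction u with
  | nil => rfl
  | cons a u ih => simp only [lab, List.length_cons, ih]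

/-- a set of points given by finitely many values is clopen -/
theorem isClopen_of {X A : Type} [TopologicalSpace X] (f : X → A)
    (hf : @Continuous X A _ ⊥ f) (S : Set A) : IsClopen (f ⁻¹' S) := by
  let _ : TopologicalSpace A := ⊥
  have _ : DiscreteTopology A := ⟨rfl⟩
  exact (isClopen_discrete S).preimage hf

/-- membership in the tree of `x` of nodes of length `n` -/
theorem mem_treeOf_iff {θ : (ℕ → ℕ) → (ℕ → ℕ)} {x : ℕ → ℕ} {s : List ℕ} :
    s ∈ treeOf θ x ↔ (s, res x s.length) ∈ {q : List ℕ × List ℕ | ∃ z, res z q.1.length = q.1 ∧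
      res (θ z) q.1.length = q.2} := Iff.rfl

end SurjAux

open SurjAux

theorem exists_onto_coanalytic (hφ : Continuous φ) (hC : ¬ MeasurableSet (range φ)ᶜ) (hP : PSP)
    (hψ : Continuous ψ) (hne : (range ψ)ᶜ.Nonempty) :
    ∃ F : ((range φ)ᶜ : Set (ℕ → ℕ)) → (ℕ → ℕ), Continuous F ∧ range F = (range ψ)ᶜ := by
  obtain ⟨c⟩ := exists_code hφ hC hP
  let X : Type := {x : ℕ → ℕ // x ∈ (range φ)ᶜ}
  let y : X → (ℕ → ℕ) := fun x k => c.outY x.1 k
  have hy : Continuous y := continuous_pi fun k => c.continuous_outY k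
  let lb : X → List ℕ → ℕ := fun x u => c.outA x.1 (Encodable.encode u)
  let K1 : ℕ → Set X := fun n => {x | ∃ p ∈ (range ψ)ᶜ, res p (n + 1) = res (y x) (n + 1)}
  let K2 : ℕ → Set X := fun n => {x | ∀ u : List ℕ, Encodable.encode u = n →
    u ∈ treeOf ψ (y x) → lab (lb x) u ∈ treeOf φ x.1}
  have hK1 : ∀ n, IsClopen (K1 n) := fun n =>
    isClopen_of (fun x => res (y x) (n + 1)) (continuous_res hy _)
      {t | ∃ p ∈ (range ψ)ᶜ, res p (n + 1) = t}
  have hT1 : ∀ u : List ℕ, IsClopen {x : X | u ∈ treeOf ψ (y x)} := fun u =>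
    isClopen_of (fun x => res (y x) u.length) (continuous_res hy _)
      {t | ∃ z, res z u.length = u ∧ res (ψ z) u.length = t}
  have hT2 : ∀ u : List ℕ, IsClopen {x : X | lab (lb x) u ∈ treeOf φ x.1} := by
    intro u
    have h1 : {x : X | lab (lb x) u ∈ treeOf φ x.1} =
        (fun x : X => (lab (lb x) u, res x.1 u.length)) ⁻¹'
          {q : List ℕ × List ℕ | ∃ z, res z q.1.length = q.1 ∧ res (φ z) q.1.length = q.2} := by
      ext x
      show lab (lb x) u ∈ treeOf φ x.1 ↔ (lab (lb x) u, res x.1 u.length) ∈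
        {q : List ℕ × List ℕ | ∃ z, res z q.1.length = q.1 ∧ res (φ z) q.1.length = q.2}
      rw [mem_treeOf_iff, length_lab]
    rw [h1]
    apply isClopen_of
    let _ : TopologicalSpace (List ℕ) := ⊥
    have _ : DiscreteTopology (List ℕ) := ⟨rfl⟩
    have h2 : Continuous (fun x : X => (lab (lb x) u, res x.1 u.length)) :=
      (continuous_lab (fun x k => c.outA x.1 k) (fun k => c.continuous_outA k) u).prodMk
        (continuous_res continuous_subtype_val _)
    have h3 : (instTopologicalSpaceProd : TopologicalSpace (List ℕ × List ℕ)) = ⊥ :=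
      DiscreteTopology.eq_bot
    rw [← h3]
    exact h2
  have hK2 : ∀ n, IsClopen (K2 n) := by
    intro n
    by_cases h : ∃ u : List ℕ, Encodable.encode u = n
    · obtain ⟨u, hu⟩ := h
      have h1 : K2 n = {x : X | u ∈ treeOf ψ (y x)}ᶜ ∪ {x : X | lab (lb x) u ∈ treeOf φ x.1} := by
        ext x
        constructor
        · intro hx
          by_cases h2 : u ∈ treeOf ψ (y x)
          · exact Or.inr (hx u hu h2)
          · exact Or.inl h2
        · intro hx u' hu' hu''
          have h3 : u' = u := Encodable.encode_injective (hu'.trans hu.symm)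
          subst h3
          rcases hx with hx | hx
          · exact absurd hu'' hx
          · exact hx
      rw [h1]
      exact (hT1 u).compl.union (hT2 u)
    · have h1 : K2 n = univ := by
        rw [eq_univ_iff_forall]
        intro x u hu
        exact absurd ⟨u, hu⟩ h
      rw [h1]
      exact isClopen_univ
  obtain ⟨F, hF1, hF2, hF3⟩ := exists_total hne hy (fun n => K1 n ∩ K2 n)
    (fun n => (hK1 n).inter (hK2 n)) (fun n x hx => hx.1) (by
      intro x hx
      have hemb : Emb (treeOf ψ (y x)) (treeOf φ x.1) [] := by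
        refine ⟨lb x, fun s hs => ?_⟩
        rw [List.append_nil]
        exact (hx (Encodable.encode s)).2 s rfl hs
      have hwf : WellFounded (Child (treeOf φ x.1)) := (wf_treeOf_iff φ hφ x.1).2 x.2
      exact (wf_treeOf_iff ψ hψ (y x)).1 (wf_of_emb hemb hwf))
  refine ⟨F, hF1, ?_⟩
  apply Subset.antisymm
  · rintro _ ⟨x, rfl⟩
    exact hF2 x
  · intro z hz
    obtain ⟨x, hx, hxy, hxu⟩ := exists_coded hφ hC hψ c (y := z) hz
    have hyx : y ⟨x, hx⟩ = z := funext hxy
    refine ⟨⟨x, hx⟩, ?_⟩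
    rw [hF3 ⟨x, hx⟩, hyx]
    intro n
    constructor
    · exact ⟨z, hz, by rw [hyx]⟩
    · intro u _ hu
      rw [hyx] at hu
      exact hxu u hu

theorem exists_onto (hP : PSP) {C B : Set (ℕ → ℕ)} (hC : Coanalytic C) (hCB : ¬ IsBorel C)
    (hB : Sigma12 B) (hne : B.Nonempty) : ∃ F : C → (ℕ → ℕ), Continuous F ∧ range F = B := by
  rw [isBorel_iff] at hCB
  -- a map onto the complement of `C`
  have h1 : ∃ φ : (ℕ → ℕ) → (ℕ → ℕ), Continuous φ ∧ range φ = Cᶜ := by
    have h3 : AnalyticSet Cᶜ := hC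
    rw [AnalyticSet] at h3
    rcases h3 with h3 | h3
    · exact absurd (by rw [compl_empty_iff.1 h3]; exact MeasurableSet.univ) hCB
    · exact h3
  obtain ⟨φ, hφ, hφC⟩ := h1
  have hCφ : C = (range φ)ᶜ := by rw [hφC, compl_compl]
  subst hCφ
  obtain ⟨P, hPa, hPB⟩ := hB
  -- Baire space is the plane
  let g : (ℕ → ℕ) → (ℕ → ℕ) × (ℕ → ℕ) := fun z => (fun n => z (2 * n + 1), fun n => z (2 * n + 2))
  have hg : Continuous g := by
    refine Continuous.prodMk ?_ ?_
    · exact continuous_pi fun n => continuous_apply _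
    · exact continuous_pi fun n => continuous_apply _
  have hgs : ∀ p : (ℕ → ℕ) × (ℕ → ℕ), ∃ z : ℕ → ℕ, z 0 = 0 ∧ g z = p := by
    intro p
    refine ⟨fun n => if n = 0 then 0 else if n % 2 = 1 then p.1 (n / 2) else p.2 (n / 2 - 1),
      by simp, ?_⟩
    apply Prod.ext
    · funext n
      show (if 2 * n + 1 = 0 then 0 else if (2 * n + 1) % 2 = 1 then p.1 ((2 * n + 1) / 2) else
        p.2 ((2 * n + 1) / 2 - 1)) = p.1 n
      have e1 : (2 * n + 1) % 2 = 1 := by omega
      have e2 : (2 * n + 1) / 2 = n := by omega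
      rw [if_neg (by omega), if_pos e1, e2]
    · funext n
      show (if 2 * n + 2 = 0 then 0 else if (2 * n + 2) % 2 = 1 then p.1 ((2 * n + 2) / 2) else
        p.2 ((2 * n + 2) / 2 - 1)) = p.2 n
      have e1 : ¬ (2 * n + 2) % 2 = 1 := by omega
      have e2 : (2 * n + 2) / 2 - 1 = n := by omega
      rw [if_neg (by omega), if_neg e1, e2]
  set Q : Set (ℕ → ℕ) := {z | z 0 = 0} ∩ g ⁻¹' P with hQ
  have hQa : AnalyticSet Qᶜ := by
    have e : Qᶜ = {z : ℕ → ℕ | z 0 = 0}ᶜ ∪ g ⁻¹' Pᶜ := by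
      rw [hQ, compl_inter]
      rfl
    rw [e]
    apply AnalyticSet.union'
    · have h5 : IsClosed ({z : ℕ → ℕ | z 0 = 0}ᶜ) := by
        have h6 : IsOpen ((fun z : ℕ → ℕ => z 0) ⁻¹' ({0} : Set ℕ)) :=
          (isOpen_discrete ({0} : Set ℕ)).preimage (continuous_apply 0)
        exact h6.isClosed_compl
      exact h5.analyticSet
    · exact hPa.preimage hg
  have h2 : ∃ ψ : (ℕ → ℕ) → (ℕ → ℕ), Continuous ψ ∧ range ψ = Qᶜ := by
    have h3 : AnalyticSet Qᶜ := hQa
    rw [AnalyticSet] at h3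
    rcases h3 with h3 | h3
    · exfalso
      have h4 : (fun _ => 1 : ℕ → ℕ) ∈ Q := by
        rw [compl_empty_iff.1 h3]
        trivial
      have h5 : (1 : ℕ) = 0 := h4.1
      exact absurd h5 (by norm_num)
    · exact h3
  obtain ⟨ψ, hψ, hψQ⟩ := h2
  have hQψ : Q = (range ψ)ᶜ := by rw [hψQ, compl_compl]
  have hQB : (fun z => (g z).1) '' Q = B := by
    rw [← hPB]
    apply Subset.antisymm
    · rintro _ ⟨z, hz, rfl⟩
      exact ⟨g z, hz.2, rfl⟩
    · rintro _ ⟨p, hp, rfl⟩
      obtain ⟨z, hz0, hz⟩ := hgs p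
      refine ⟨z, ⟨hz0, ?_⟩, ?_⟩
      · show g z ∈ P
        rw [hz]
        exact hp
      · show (g z).1 = p.1
        rw [hz]
  have hQne : (range ψ)ᶜ.Nonempty := by
    rw [← hQψ]
    rw [← hQB] at hne
    exact hne.of_image
  obtain ⟨F, hF1, hF2⟩ := exists_onto_coanalytic hφ hCB hP hψ hQne
  refine ⟨fun x => (g (F x)).1, (continuous_fst.comp hg).comp hF1, ?_⟩
  rw [← hQB, hQψ, ← hF2]
  ext z
  constructor
  · rintro ⟨x, rfl⟩
    exact ⟨F x, ⟨x, rfl⟩, rfl⟩
  · rintro ⟨_, ⟨x, rfl⟩, rfl⟩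
    exact ⟨x, rfl⟩

theorem hjorthHyp_iff {D : Type} [TopologicalSpace D] [Countable D] [DiscreteTopology D] :
    HjorthHyp D ↔ PSP := by
  refine ⟨psp_of_hjorthHyp, fun hP B hB hunc C hC hCB => ?_⟩
  have hne : B.Nonempty := by
    rw [Set.nonempty_iff_ne_empty]
    rintro rfl
    exact hunc countable_empty
  obtain ⟨F, hF, hr⟩ := exists_onto hP hC hCB hB hne
  obtain ⟨b, hb⟩ := hne
  refine ⟨Sum.elim F fun _ => b, hF.sumElim continuous_const, ?_⟩
  ext z
  constructor
  · rintro ⟨x | x, rfl⟩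
    · rw [← hr]; exact ⟨x, rfl⟩
    · exact hb
  · intro hz
    rw [← hr] at hz
    obtain ⟨x, rfl⟩ := hz
    exact ⟨Sum.inl x, rfl⟩

end HJ
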